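import Mathlib
import Pool.Agent.Helper71.ImgChart

namespace Pool.Agent.Helper69

open AlgebraicGeometry CategoryTheory Limits

universe u

/-- the target of a quasi-compact scheme-theoretically dominant morphism from an integral scheme
is integral. -/
theorem isIntegral_of_schemeTheoreticallyDominant {X Y : Scheme.{u}} (f : X ⟶ Y) [IsIntegral X]
    [IsSchemeTheoreticallyDominant f] [QuasiCompact f] : IsIntegral Y := by
  have h1 : IsReduced Y := IsSchemeTheoreticallyDominant.isReduced f
  have hdom : IsDominant f := inferInstance
  have h2 : IrreducibleSpace Y := by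
    rw [irreducibleSpace_def]
    convert!
      ((IrreducibleSpace.isIrreducible_univ X).image _
          f.continuous.continuousOn).closure
    simpa using f.denseRange.closure_range.symm
  exact isIntegral_of_irreducibleSpace_of_isReduced _

theorem isIntegral_of_iso' {X Y : Scheme.{u}} (e : X ≅ Y) [IsIntegral Y] : IsIntegral X := by
  have : Nonempty X := by
    obtain ⟨y⟩ := (inferInstance : Nonempty Y)
    exact ⟨e.inv y⟩
  exact isIntegral_of_isOpenImmersion e.hom

theorem geometricallyIntegral_image {k F : Type u} [Field k] [Field F] [Algebra k F]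
    (h : ∀ (K : Type u) [Field K] [Algebra k K], IsDomain (TensorProduct k F K))
    {Y : Scheme.{u}} (t : Y ⟶ Spec (.of k)) (g : Spec (.of F) ⟶ Y) [QuasiCompact g]
    (hg : g ≫ t = Spec.map (CommRingCat.ofHom (algebraMap k F))) :
    GeometricallyIntegral (g.imageι ≫ t) := by
  rw [geometricallyIntegral_iff, geometrically_iff_of_commRing]
  intro K _ _ Z fst snd H
  obtain ⟨y, hy⟩ : ∃ y : Spec (.of K) ⟶ Spec (.of k),
    y = Spec.map (CommRingCat.ofHom (algebraMap k K)) := ⟨_, rfl⟩
  rw [← hy] at H
  suffices hP : IsIntegral (pullback (g.imageι ≫ t) y) from isIntegral_of_iso' H.isoPullback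
  have hint : IsIntegral g.image := Helper71.isIntegral_image g
  have hst : IsSchemeTheoreticallyDominant g.toImage := .of_isDominant _
  have hflat : Flat y := inferInstance
  have e1 : pullback g.toImage (pullback.fst (g.imageι ≫ t) y) ≅
      pullback (g.toImage ≫ g.imageι ≫ t) y := pullbackRightPullbackFstIso _ _ _
  have e2 : g.toImage ≫ g.imageι ≫ t = Spec.map (CommRingCat.ofHom (algebraMap k F)) := by
    rw [Scheme.Hom.toImage_imageι_assoc, hg]
  rw [e2] at e1
  have hdomain := h K
  have hint2 : IsIntegral (Spec (.of (TensorProduct k F K))) := inferInstance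
  have hint3 : IsIntegral (pullback g.toImage (pullback.fst (g.imageι ≫ t) y)) := by
    subst hy
    exact isIntegral_of_iso' (e1 ≪≫ pullbackSpecIso k F K)
  exact isIntegral_of_schemeTheoreticallyDominant
    (pullback.snd g.toImage (pullback.fst (g.imageι ≫ t) y))

end Pool.Agent.Helper69
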