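import Mathlib
import Pool.Agent.Helper71.PPDom

namespace Pool.Agent.Helper69

open AlgebraicGeometry CategoryTheory MvPolynomial Limits
open Pool.Agent.Helper71

universe u

attribute [local instance] MvPolynomial.gradedAlgebra

theorem locallyOfFiniteType_PPtoSpec (k : Type u) [Field k] (n : ℕ) :
    LocallyOfFiniteType (PPtoSpec k n) := by
  have h1 : Algebra.FiniteType (hsub k n 0) (MvPolynomial (Fin (n + 1)) k) := by
    have : IsScalarTower k (hsub k n 0) (MvPolynomial (Fin (n + 1)) k) :=
      IsScalarTower.of_algebraMap_eq (R := k) (S := hsub k n 0)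
        (A := MvPolynomial (Fin (n + 1)) k) fun c => rfl
    exact Algebra.FiniteType.of_restrictScalars_finiteType k _ _
  have h2 : Function.Surjective (algebraMap k (hsub k n 0)) := by
    rintro ⟨x, hx⟩
    refine ⟨coeff 0 x, ?_⟩
    apply Subtype.ext
    change C (coeff 0 x) = x
    have h3 : x.totalDegree = 0 := by
      rw [mem_homogeneousSubmodule] at hx
      exact Nat.le_zero.1 hx.totalDegree_le
    exact (totalDegree_eq_zero_iff_eq_C.1 h3).symm
  have h3 : IsClosedImmersion (Spec.map (CommRingCat.ofHom (algebraMap k (hsub k n 0)))) :=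
    IsClosedImmersion.spec_of_surjective _ h2
  rw [PPtoSpec]
  infer_instance

theorem rank_eq_one_of_eq_top {L : Type u} [Field L] (S : Subfield L) (h : S = ⊤) :
    Module.rank S L = 1 := by
  refine rank_eq_one (1 : L) one_ne_zero fun w => ⟨⟨w, ?_⟩, ?_⟩
  · rw [h]; trivial
  · rw [Subfield.smul_def, smul_eq_mul, mul_one]

/-- homogeneous forms in two variables do not vanish at `(1, τ)` for `τ` transcendental. -/
theorem form_ne_zero {k L : Type u} [Field k] [Field L] [Algebra k L] (τ : L)
    (hτ : Transcendental k τ) (d : ℕ) (x : MvPolynomial (Fin 2) k) (hx : x ∈ hsub k 1 d)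
    (h0 : aeval ![1, τ] x = 0) : x = 0 := by
  have h1 : x.IsHomogeneous d := hx
  have hsum : ∀ m ∈ x.support, m 0 + m 1 = d := by
    intro m hm
    have := h1 (mem_support_iff.1 hm)
    rw [Finsupp.weight_apply, Finsupp.sum_fintype _ _ (by simp)] at this
    simpa [Fin.sum_univ_two] using this
  let P : Polynomial k := ∑ m ∈ x.support, Polynomial.monomial (m 1) (coeff m x)
  have hP : Polynomial.aeval τ P = 0 := by
    rw [← h0, map_sum]
    rw [aeval_def, eval₂_eq']
    refine Finset.sum_congr rfl fun m hm => ?_
    rw [Polynomial.aeval_monomial, Fin.prod_univ_two]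
    simp
  have hP0 : P = 0 := by
    by_contra hne
    exact hτ ⟨P, hne, hP⟩
  ext m
  rw [coeff_zero]
  by_contra hm
  have hms : m ∈ x.support := mem_support_iff.2 hm
  have hc : P.coeff (m 1) = coeff m x := by
    rw [Polynomial.finsetSum_coeff, Finset.sum_eq_single m]
    · rw [Polynomial.coeff_monomial, if_pos rfl]
    · intro m' hm' hne
      rw [Polynomial.coeff_monomial, if_neg]
      intro heq
      apply hne
      have e1 := hsum m hms
      have e2 := hsum m' hm'
      ext i
      fin_cases i
      · change m' 0 = m 0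
        omega
      · exact heq
    · intro h
      exact absurd hms h
  rw [hP0, Polynomial.coeff_zero] at hc
  exact hm hc.symm

theorem gonality_eq_one_aux {k : Type u} [Field k] {D : Scheme.{u}} [IsIntegral D]
    (s : D ⟶ Spec (.of k)) [Algebra k D.functionField]
    (halg : D.fromSpecStalk (genericPoint D) ≫ s =
      Spec.map (CommRingCat.ofHom (algebraMap k D.functionField)))
    (τ : D.functionField) (hτ : Transcendental k τ)
    (htop : IntermediateField.adjoin k {τ} = ⊤) : gonality s = 1 := by
  have hlft := locallyOfFiniteType_PPtoSpec k 1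
  have hu : IsUnit ((![1, τ] : Fin 2 → D.functionField) 0) := isUnit_one
  obtain ⟨f, hf⟩ : ∃ f : Spec D.functionField ⟶ PP k 1, f = pt (k := k) (n := 1) 0 ![1, τ] hu :=
    ⟨_, rfl⟩
  have hover : f ≫ PPtoSpec k 1 = D.fromSpecStalk _ ≫ s := by
    rw [hf, halg]
    exact pt_over _ _ _
  obtain ⟨φ, hφ⟩ : ∃ φ : { f : D ⤏ PP k 1 // f.compHom (PPtoSpec k 1) = s.toRationalMap },
    φ = Scheme.RationalMap.equivFunctionField s (PPtoSpec k 1) ⟨f, hover⟩ := ⟨_, rfl⟩
  have hφf : φ.1.fromFunctionField = f := by
    rw [hφ]
    exact Scheme.RationalMap.fromFunctionField_ofFunctionField _ _ _ _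
  have hdom : IsDomRat s φ.1 := by
    refine ⟨φ.2, ?_⟩
    rw [isDominant_iff_fromFunctionField, hφf, hf]
    exact isDominant_pt _ _ _ (form_ne_zero τ hτ)
  have hdeg : ratDegree φ.1 = 1 := by
    apply rank_eq_one_of_eq_top
    rw [pullbackField, hφf, hf]
    refine (closure_pt (k := k) (n := 1) 0 ![1, τ] rfl hu).trans ?_
    have hle : IntermediateField.adjoin k {τ} ≤
        IntermediateField.adjoin k (Set.range ![1, τ]) := by
      rw [IntermediateField.adjoin_le_iff]
      rintro _ rfl
      exact IntermediateField.subset_adjoin _ _ ⟨1, rfl⟩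
    rw [htop, top_le_iff] at hle
    rw [hle]
    rfl
  apply le_antisymm
  · exact csInf_le' ⟨φ.1, hdom, hdeg⟩
  · refine le_csInf ⟨_, φ.1, hdom, hdeg⟩ ?_
    rintro _ ⟨ψ, hψ, rfl⟩
    rw [Cardinal.one_le_iff_pos, ratDegree]
    exact rank_pos

theorem gonality_eq_one_aux2 {k : Type u} [Field k] {D : Scheme.{u}} [IsIntegral D]
    (s : D ⟶ Spec (.of k)) (K : Type u) [Field K] [Algebra k K] (x : D)
    (hx : x = genericPoint D) (σ : D.presheaf.stalk x ⟶ .of K)
    (hσ : Function.Surjective σ.hom)
    (h : Spec.map σ ≫ D.fromSpecStalk x ≫ s = Spec.map (CommRingCat.ofHom (algebraMap k K)))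
    (τ : K) (hτ : Transcendental k τ)
    (htop : IntermediateField.adjoin k {τ} = ⊤) : gonality s = 1 := by
  subst hx
  have hinj : Function.Injective σ.hom := by
    have h1 : Function.Injective (σ.hom : D.functionField →+* K) := RingHom.injective _
    exact h1
  let e : D.functionField ≃+* K := RingEquiv.ofBijective (σ.hom : D.functionField →+* K)
    ⟨hinj, hσ⟩
  let _ : Algebra k D.functionField := (e.symm.toRingHom.comp (algebraMap k K)).toAlgebra
  let e' : K ≃ₐ[k] D.functionField := AlgEquiv.ofRingEquiv (f := e.symm) fun c => rfl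
  have halg : D.fromSpecStalk (genericPoint D) ≫ s =
      Spec.map (CommRingCat.ofHom (algebraMap k D.functionField)) := by
    have hcomp : CommRingCat.ofHom (algebraMap k K) ≫ CommRingCat.ofHom e.symm.toRingHom =
      CommRingCat.ofHom (algebraMap k D.functionField) := rfl
    have hid : σ ≫ CommRingCat.ofHom e.symm.toRingHom = 𝟙 _ := by
      ext z
      exact e.symm_apply_apply z
    rw [← hcomp, Spec.map_comp, ← h, ← Category.assoc (Spec.map (CommRingCat.ofHom _)),
      ← Spec.map_comp, hid, Spec.map_id]
    exact (Category.id_comp _).symm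
  refine gonality_eq_one_aux s halg (e' τ) ?_ ?_
  · intro hτ'
    exact hτ ((isAlgebraic_algHom_iff (e' : K →ₐ[k] D.functionField) e'.injective).1 hτ')
  · have h1 := IntermediateField.adjoin_map k {τ} (e' : K →ₐ[k] D.functionField)
    rw [Set.image_singleton, htop] at h1
    refine h1.symm.trans ?_
    rw [eq_top_iff]
    intro z _
    exact ⟨e'.symm z, trivial, e'.apply_symm_apply z⟩

/-- a curve whose function field is a rational function field has gonality one. -/
theorem gonality_eq_one {k : Type u} [Field k] {D : Scheme.{u}} [IsIntegral D]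
    (s : D ⟶ Spec (.of k)) (K : Type u) [Field K] [Algebra k K] (g : Spec (.of K) ⟶ D)
    (hg : g ≫ s = Spec.map (CommRingCat.ofHom (algebraMap k K))) [IsDominant g]
    (hsurj : Function.Surjective (Scheme.stalkClosedPointTo g).hom)
    (τ : K) (hτ : Transcendental k τ)
    (htop : IntermediateField.adjoin k {τ} = ⊤) : gonality s = 1 := by
  have hx : g (IsLocalRing.closedPoint K) = genericPoint D := by
    have h1 : IsGenericPoint (g (IsLocalRing.closedPoint K)) Set.univ := by
      rw [IsGenericPoint, ← g.denseRange.closure_range]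
      congr 1
      ext z
      constructor
      · rintro rfl
        exact ⟨_, rfl⟩
      · rintro ⟨t, rfl⟩
        rw [Subsingleton.elim t (IsLocalRing.closedPoint K)]
        rfl
    exact h1.eq (genericPoint_spec D)
  refine gonality_eq_one_aux2 s K _ hx (Scheme.stalkClosedPointTo g) hsurj ?_ τ hτ htop
  rw [← Category.assoc, Scheme.Spec_stalkClosedPointTo_fromSpecStalk, hg]

/-- the same with a chart. -/
theorem gonality_eq_one_of_chart {k : Type u} [Field k] {D : Scheme.{u}} [IsIntegral D]
    (s : D ⟶ Spec (.of k)) (K : Type u) [Field K] [Algebra k K] {B : Type u} [CommRing B]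
    (c : Spec (.of B) ⟶ D) [IsOpenImmersion c] (θ : B →+* K) (hθ : Function.Injective θ)
    (hcl : Subfield.closure (Set.range θ) = ⊤)
    (hs : Spec.map (CommRingCat.ofHom θ) ≫ c ≫ s =
      Spec.map (CommRingCat.ofHom (algebraMap k K)))
    (τ : K) (hτ : Transcendental k τ)
    (htop : IntermediateField.adjoin k {τ} = ⊤) : gonality s = 1 := by
  have hne : Nonempty (Spec (.of B)) :=
    ⟨(Spec.map (CommRingCat.ofHom θ)) (IsLocalRing.closedPoint K)⟩
  have hd1 : IsDominant (Spec.map (CommRingCat.ofHom θ)) := by
    constructor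
    change DenseRange (PrimeSpectrum.comap θ)
    rw [PrimeSpectrum.denseRange_comap_iff_ker_le_nilRadical,
      (RingHom.injective_iff_ker_eq_bot θ).1 hθ]
    exact bot_le
  have hd2 : IsDominant c := by
    constructor
    have := c.opensRange.2
    exact this.dense (by
      obtain ⟨z⟩ := hne
      exact ⟨c z, z, rfl⟩)
  have hd : IsDominant (Spec.map (CommRingCat.ofHom θ) ≫ c) := inferInstance
  have hx : (Spec.map (CommRingCat.ofHom θ) ≫ c) (IsLocalRing.closedPoint K) =
      genericPoint D := by
    have h1 : IsGenericPoint ((Spec.map (CommRingCat.ofHom θ) ≫ c)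
        (IsLocalRing.closedPoint K)) Set.univ := by
      rw [IsGenericPoint, ← (Spec.map (CommRingCat.ofHom θ) ≫ c).denseRange.closure_range]
      congr 1
      ext z
      constructor
      · rintro rfl
        exact ⟨_, rfl⟩
      · rintro ⟨t, rfl⟩
        rw [Subsingleton.elim t (IsLocalRing.closedPoint K)]
        rfl
    exact h1.eq (genericPoint_spec D)
  refine gonality_eq_one s K (Spec.map (CommRingCat.ofHom θ) ≫ c)
    (by rw [Category.assoc, hs]) ?_ τ hτ htop
  have hcs := closure_stalk (CommRingCat.ofHom θ) c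
  have hfield : IsField (D.presheaf.stalk ((Spec.map (CommRingCat.ofHom θ) ≫ c)
      (IsLocalRing.closedPoint K))) := by
    rw [hx]
    exact Field.toIsField D.functionField
  let _ := hfield.toField
  intro z
  have hz : z ∈ Subfield.closure (Set.range (Scheme.stalkClosedPointTo
      (Spec.map (CommRingCat.ofHom θ) ≫ c)).hom) := by
    rw [hcs]
    change z ∈ Subfield.closure (Set.range θ)
    rw [hcl]
    trivial
  have hle : Subfield.closure (Set.range (Scheme.stalkClosedPointTo
      (Spec.map (CommRingCat.ofHom θ) ≫ c)).hom) ≤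
      RingHom.fieldRange (Scheme.stalkClosedPointTo
      (Spec.map (CommRingCat.ofHom θ) ≫ c)).hom := by
    rw [Subfield.closure_le]
    rintro _ ⟨t, rfl⟩
    exact ⟨t, rfl⟩
  exact hle hz

end Pool.Agent.Helper69
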