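import Mathlib
import Pool.Agent.Helper71.ChartRing

namespace Pool.Agent.Helper69

open MvPolynomial AlgebraicGeometry CategoryTheory

universe u

/-- the polynomial ring in `n` variables is standard smooth of relative dimension `n`. -/
theorem standardSmooth_mvPolynomial (R : Type u) [CommRing R] (n : ℕ) :
    Algebra.IsStandardSmoothOfRelativeDimension n R (MvPolynomial (Fin n) R) := by
  let P0 : Algebra.Presentation R (MvPolynomial (Fin n) R) (Fin n) Empty :=
    { Algebra.Generators.mvPolynomial R (Fin n) with
      relation := Empty.elim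
      span_range_relation_eq_ker := by
        rw [Set.range_eq_empty, Ideal.span_empty]
        exact Algebra.Generators.ker_mvPolynomial.symm }
  let P1 : Algebra.PreSubmersivePresentation R (MvPolynomial (Fin n) R) (Fin n) Empty :=
    { P0 with
      map := Empty.elim
      map_inj := fun a => a.elim }
  let P2 : Algebra.SubmersivePresentation R (MvPolynomial (Fin n) R) (Fin n) Empty :=
    { P1 with
      jacobian_isUnit := by
        rw [Algebra.PreSubmersivePresentation.jacobian_eq_jacobiMatrix_det, Matrix.det_isEmpty,
          map_one]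
        exact isUnit_one }
  apply P2.isStandardSmoothOfRelativeDimension
  simp [Algebra.Presentation.dimension]

theorem etale_adjoinRoot {R : Type u} [CommRing R] (f : Polynomial R) (hf : f.Monic)
    (hd : IsUnit (Polynomial.derivative f)) : Algebra.Etale R (AdjoinRoot f) := by
  obtain ⟨v, hv⟩ := hd.exists_right_inv
  let P : StandardEtalePair R :=
    { f := f
      monic_f := hf
      g := 1
      cond := ⟨v, 0, 0, by rw [hv]; simp⟩ }
  have e1 : P.Ring ≃ₐ[R] Localization.Away (AdjoinRoot.mk P.f P.g) := P.equivAwayAdjoinRoot
  have hu : IsUnit (AdjoinRoot.mk P.f P.g) := by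
    change IsUnit (AdjoinRoot.mk P.f 1)
    rw [map_one]
    exact isUnit_one
  have e2 : AdjoinRoot f ≃ₐ[AdjoinRoot f] Localization.Away (AdjoinRoot.mk P.f P.g) :=
    IsLocalization.atUnit _ _ _ hu
  have e3 : P.Ring ≃ₐ[R] AdjoinRoot f := e1.trans (e2.restrictScalars R).symm
  exact Algebra.Etale.of_equiv e3

theorem standardSmooth_chartRing (k : Type u) [Field k] (p : ℕ) [Fact p.Prime] [CharP k p] :
    Algebra.IsStandardSmoothOfRelativeDimension 2 k (Helper71.ChartRing k p) := by
  have hp : 1 < p := (Fact.out : p.Prime).one_lt
  have h1 : Algebra.Etale (MvPolynomial (Fin 2) k) (Helper71.ChartRing k p) := by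
    apply etale_adjoinRoot _ (Helper71.monic_chartPoly k p hp)
    have : Polynomial.derivative (Helper71.chartPoly k p) = -1 := by
      rw [Helper71.chartPoly]
      have hcast : ((p ^ 2 : ℕ) : Polynomial (MvPolynomial (Fin 2) k)) = 0 := by
        have : ((p : ℕ) : Polynomial (MvPolynomial (Fin 2) k)) = 0 := by
          rw [← Polynomial.C_eq_natCast, ← map_natCast (MvPolynomial.C : k →+* _),
            CharP.cast_eq_zero, map_zero, map_zero]
        push_cast
        rw [this]
        simp
      rw [Polynomial.derivative_add, Polynomial.derivative_sub, Polynomial.derivative_X_pow,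
        Polynomial.derivative_X, Polynomial.derivative_C, Polynomial.C_eq_natCast, hcast]
      ring
    rw [this]
    exact isUnit_one.neg
  rw [Algebra.Etale.iff_isStandardSmoothOfRelativeDimension_zero] at h1
  have h2 := standardSmooth_mvPolynomial k 2
  have := Algebra.IsStandardSmoothOfRelativeDimension.trans 2 0 k (MvPolynomial (Fin 2) k)
    (Helper71.ChartRing k p)
  simpa using this

/-- a scheme covered by charts that are standard smooth of relative dimension `n` is smooth of
relative dimension `n`. -/
theorem smooth_of_charts {k : Type u} [Field k] {X : Scheme.{u}} (s : X ⟶ Spec (.of k))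
    {B : Type u} [CommRing B] [Algebra k B] (n : ℕ)
    [hB : Algebra.IsStandardSmoothOfRelativeDimension n k B]
    {ι : Type} (c : ι → (Spec (.of B) ⟶ X)) (hc : ∀ i, IsOpenImmersion (c i))
    (hs : ∀ i, c i ≫ s = Spec.map (CommRingCat.ofHom (algebraMap k B)))
    (hcov : ∀ x : X, ∃ i, x ∈ (c i).opensRange) :
    SmoothOfRelativeDimension n s := by
  let 𝒰 : X.OpenCover := Scheme.Cover.mkOfCovers (P := @IsOpenImmersion) ι
    (fun _ => Spec (.of B)) c (fun x => by
      obtain ⟨i, y, hy⟩ := hcov x
      exact ⟨i, y, hy⟩) hc
  apply IsZariskiLocalAtSource.of_openCover (P := @SmoothOfRelativeDimension n) 𝒰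
  intro i
  change SmoothOfRelativeDimension n (c i ≫ s)
  rw [hs i, HasRingHomProperty.Spec_iff (P := @SmoothOfRelativeDimension n)]
  apply RingHom.locally_of
    RingHom.isStandardSmoothOfRelativeDimension_respectsIso
  rw [CommRingCat.hom_ofHom, RingHom.isStandardSmoothOfRelativeDimension_algebraMap]
  exact hB

end Pool.Agent.Helper69
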