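import Mathlib

set_option autoImplicit false

namespace Pool.Agent.Helper69.SymbolicSpread

/-- The `n`-th symbolic power `I ^ (n)` of an ideal `I`: the intersection, over the minimal primes
`p` of `I`, of the contractions to `R` of the ideals `I ^ n R_p`. -/
noncomputable def symbolicPower {R : Type} [CommRing R] (I : Ideal R) (n : ℕ) : Ideal R :=
  ⨅ p : {p : PrimeSpectrum R // p.asIdeal ∈ I.minimalPrimes},
    ((I ^ n).map (algebraMap R (Localization.AtPrime p.1.asIdeal))).comap
      (algebraMap R (Localization.AtPrime p.1.asIdeal))

/-- The symbolic analytic spread: the infimum, in the extended reals, of the real numbers `t` such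
that the minimal number of generators of `I ^ (n)` is `O(n ^ (t - 1))`; it is `⊤` if there is no
such `t`. -/
noncomputable def symbolicAnalyticSpread {R : Type} [CommRing R] (I : Ideal R) : EReal :=
  sInf ((fun t : ℝ => (t : EReal)) '' {t : ℝ |
    (fun n : ℕ => (Submodule.spanFinrank (symbolicPower I n) : ℝ)) =O[Filter.atTop]
      (fun n : ℕ => (n : ℝ) ^ (t - 1))})

end Pool.Agent.Helper69.SymbolicSpread
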