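import Mathlib

set_option autoImplicit false

namespace Pool.Agent.Helper69.Spread

open Function

theorem ringKrullDim_le_of_integral {A B : Type} [CommRing A] [CommRing B] (g : A →+* B)
    (hg : g.IsIntegral) : ringKrullDim B ≤ ringKrullDim A := by
  algebraize [g]
  have : Algebra.IsIntegral A B := ⟨hg⟩
  refine Order.krullDim_le_of_strictMono
    (fun p : PrimeSpectrum B => (⟨p.asIdeal.comap (algebraMap A B), inferInstance⟩ : PrimeSpectrum A)) ?_
  intro p q hpq
  exact Ideal.IsIntegral.comap_lt_comap (show p.asIdeal < q.asIdeal from hpq)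

theorem ringKrullDim_le_card {k A ι : Type} [Field k] [CommRing A] [Nontrivial A] [Algebra k A]
    [Algebra.FiniteType k A] [Fintype ι] (f : A →ₐ[k] MvPolynomial ι k) (hf : Injective f) :
    ringKrullDim A ≤ Fintype.card ι := by
  obtain ⟨s, g, hg, hint⟩ := exists_integral_inj_algHom_of_fg k A
  have h1 : ringKrullDim A ≤ (s : WithBot ℕ∞) := by
    refine (ringKrullDim_le_of_integral g.toRingHom hint).trans ?_
    simp
  refine h1.trans ?_
  have h2 : AlgebraicIndependent k (fun i : Fin s => f (g (MvPolynomial.X i))) := by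
    have : AlgebraicIndependent k (MvPolynomial.X : Fin s → MvPolynomial (Fin s) k) :=
      MvPolynomial.algebraicIndependent_X (Fin s) k
    exact this.map' (f := f.comp g) (hf.comp hg)
  have h3 := h2.lift_cardinalMk_le_trdeg
  rw [MvPolynomial.trdeg_of_isDomain] at h3
  simp only [Cardinal.lift_natCast, Cardinal.mk_fintype, Fintype.card_fin] at h3
  exact_mod_cast h3

theorem ringKrullDim_localization_le {A : Type} [CommRing A] (p : Ideal A) [p.IsPrime] :
    ringKrullDim (Localization.AtPrime p) ≤ ringKrullDim A := by
  rw [IsLocalization.AtPrime.ringKrullDim_eq_height p]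
  exact Ideal.height_le_ringKrullDim_of_ne_top (Ideal.IsPrime.ne_top inferInstance)

end Pool.Agent.Helper69.Spread
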