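import Pool.Agent.Helper69.SpreadGen
import Pool.Agent.Helper69.SpreadDim
import Pool.Agent.Helper69.SpreadDefs

set_option autoImplicit false

namespace Pool.Agent.Helper69.Spread

open SymbolicSpread

theorem mem_symbolicPower {R : Type} [CommRing R] (P : Ideal R) [hP : P.IsPrime] (n : ℕ) (x : R) :
    x ∈ symbolicPower P n ↔ ∃ s, s ∉ P ∧ s * x ∈ P ^ n := by
  rw [symbolicPower, Submodule.mem_iInf]
  constructor
  · intro h
    have h1 := h ⟨⟨P, hP⟩, by rw [Ideal.minimalPrimes_eq_subsingleton_self]; rfl⟩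
    rw [Ideal.mem_comap, IsLocalization.algebraMap_mem_map_algebraMap_iff P.primeCompl] at h1
    obtain ⟨s, hs, hs'⟩ := h1
    exact ⟨s, hs, hs'⟩
  · rintro ⟨s, hs, hs'⟩ ⟨p, hp⟩
    rw [Ideal.minimalPrimes_eq_subsingleton_self, Set.mem_singleton_iff] at hp
    rw [Ideal.mem_comap,
      IsLocalization.algebraMap_mem_map_algebraMap_iff p.asIdeal.primeCompl]
    refine ⟨s, ?_, hs'⟩
    show s ∉ p.asIdeal
    rw [hp]
    exact hs

section
variable {A : Type} [CommRing A] [IsDomain A] (m : Ideal A) [hm : m.IsPrime] (M : ℕ → Ideal A)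
  (hM1 : (M 1).IsPrime) (hle : M 1 ≤ m) (hpow : ∀ n, M 1 ^ n ≤ M n)
  (hcancel : ∀ n D f, D ∉ M 1 → D * f ∈ M n → f ∈ M n)

include hle in
theorem disj' : Disjoint (m.primeCompl : Set A) (M 1) := by
  rw [Set.disjoint_left]
  intro x hx hx'
  exact hx (hle hx')

include hM1 hle in
theorem PP_prime' : ((M 1).map (algebraMap A (Localization.AtPrime m))).IsPrime :=
  IsLocalization.isPrime_of_isPrime_disjoint m.primeCompl _ _ hM1 (disj' m M hle)

include hM1 hle in
theorem mem_PP' (f : A) : algebraMap A (Localization.AtPrime m) f ∈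
    (M 1).map (algebraMap A (Localization.AtPrime m)) ↔ f ∈ M 1 := by
  have := IsLocalization.under_map_of_isPrime_disjoint m.primeCompl (Localization.AtPrime m)
    hM1 (disj' m M hle)
  constructor
  · intro h
    rw [← this]
    exact h
  · intro h
    exact Ideal.mem_map_of_mem _ h

include hM1 hle in
theorem mem_of_D' {n : ℕ} {D f : A} (hD : D ∉ M 1) (h : D * f ∈ M 1 ^ n) :
    algebraMap A (Localization.AtPrime m) f ∈
      symbolicPower ((M 1).map (algebraMap A (Localization.AtPrime m))) n := by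
  haveI := PP_prime' m M hM1 hle
  rw [mem_symbolicPower]
  refine ⟨algebraMap _ _ D, fun h => hD ((mem_PP' m M hM1 hle D).1 h), ?_⟩
  rw [← map_mul, ← Ideal.map_pow]
  exact Ideal.mem_map_of_mem _ h

include hM1 hle hpow hcancel in
theorem symb_le' (n : ℕ) :
    symbolicPower ((M 1).map (algebraMap A (Localization.AtPrime m))) n ≤
      (M n).map (algebraMap A (Localization.AtPrime m)) := by
  haveI hP := PP_prime' m M hM1 hle
  intro x hx
  rw [mem_symbolicPower] at hx
  obtain ⟨s, hs, hsx⟩ := hx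
  obtain ⟨⟨f, u⟩, hf⟩ := IsLocalization.surj m.primeCompl x
  obtain ⟨⟨s0, v⟩, hs0⟩ := IsLocalization.surj m.primeCompl s
  simp only at hf hs0
  have h1 : s0 ∉ M 1 := by
    intro h
    rw [← mem_PP' m M hM1 hle, ← hs0] at h
    rcases hP.mem_or_mem h with h | h
    · exact hs h
    · exact hP.ne_top
        (Ideal.eq_top_of_isUnit_mem _ h (IsLocalization.map_units _ v))
  have h2 : algebraMap A (Localization.AtPrime m) (s0 * f) ∈
      (M 1 ^ n).map (algebraMap _ (Localization.AtPrime m)) := by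
    rw [Ideal.map_pow, map_mul, ← hf, ← hs0]
    have : s * algebraMap A (Localization.AtPrime m) v *
          (x * algebraMap A (Localization.AtPrime m) u) =
        (algebraMap A (Localization.AtPrime m) v * algebraMap A (Localization.AtPrime m) u) *
          (s * x) := by ring
    rw [this]
    exact Ideal.mul_mem_left _ _ hsx
  rw [IsLocalization.algebraMap_mem_map_algebraMap_iff m.primeCompl] at h2
  obtain ⟨w, hw, hw'⟩ := h2
  have h3 : w * s0 ∉ M 1 := by
    intro h
    rcases hM1.mem_or_mem h with h | h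
    · exact hw (hle h)
    · exact h1 h
  have h4 : f ∈ M n := by
    apply hcancel n _ _ h3
    rw [mul_assoc]
    exact hpow n hw'
  rw [IsLocalization.mem_map_algebraMap_iff m.primeCompl]
  exact ⟨⟨⟨f, h4⟩, u⟩, hf⟩

end

/-- The abstract machine. -/
theorem abstract_main {A k : Type} [CommRing A] [IsDomain A] [IsNoetherianRing A] [Field k]
    (ε : A →+* k) (M : ℕ → Ideal A) (hM1 : (M 1).IsPrime) (hle : ∀ f ∈ M 1, ε f = 0)
    (hpow : ∀ n, M 1 ^ n ≤ M n) (hcancel : ∀ n D f, D ∉ M 1 → D * f ∈ M n → f ∈ M n) :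
    ∃ (R : Type) (_ : CommRing R) (_ : IsDomain R) (_ : IsLocalRing R) (_ : IsNoetherianRing R)
      (P : Ideal R), P.IsPrime ∧ ringKrullDim R ≤ ringKrullDim A ∧
      ∀ (n : ℕ) (ι : Type) [Fintype ι] (κ : A → (ι → k)) (_ : ∀ x y, κ (x + y) = κ x + κ y)
        (_ : κ 0 = 0) (_ : ∀ h f, f ∈ M n → κ (h * f) = ε h • κ f) (F : ι → A)
        (_ : ∀ i, ∃ D, D ∉ M 1 ∧ D * F i ∈ M 1 ^ n)
        (_ : ∀ i, ∃ c : k, c ≠ 0 ∧
          κ (F i) = c • (fun j => open Classical in if j = i then 1 else 0)),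
        Fintype.card ι ≤ Submodule.spanFinrank (symbolicPower P n) := by
  set m : Ideal A := RingHom.ker ε with hmdef
  haveI hm : m.IsPrime := RingHom.ker_isPrime _
  have hle' : M 1 ≤ m := fun f hf => hle f hf
  haveI : IsDomain (Localization.AtPrime m) :=
    IsLocalization.isDomain_localization m.primeCompl_le_nonZeroDivisors
  haveI : IsNoetherianRing (Localization.AtPrime m) :=
    IsLocalization.isNoetherianRing m.primeCompl _ inferInstance
  refine ⟨Localization.AtPrime m, inferInstance, inferInstance, inferInstance, inferInstance,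
    (M 1).map (algebraMap A (Localization.AtPrime m)), PP_prime' m M hM1 hle',
    ringKrullDim_localization_le m, ?_⟩
  intro n ι _ κ hadd h0 hmul F hF hκ
  refine card_le_spanFinrank m ε (fun w hw h => hw h) (M n) κ hadd h0 hmul _
    (symb_le' m M hM1 hle' hpow hcancel n) (IsNoetherian.noetherian _) F ?_ ?_ hκ
  · intro i
    obtain ⟨D, hD1, hD2⟩ := hF i
    exact hcancel n _ _ hD1 (hpow n hD2)
  · intro i
    obtain ⟨D, hD1, hD2⟩ := hF i
    exact mem_of_D' m M hM1 hle' hD1 hD2

end Pool.Agent.Helper69.Spread
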