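import Pool.Agent.Helper69.SpreadCount

set_option autoImplicit false

namespace Pool.Agent.Helper69.Spread

open MvPolynomial

section
variable (k : Type) [Field k]

/-- `B = k[x, Y, Z]`. -/
abbrev B : Type := MvPolynomial (Fin 3) k

/-- The cubic `Z (x ^ 2 + x Z + Z ^ 2)`. -/
noncomputable def A1 : B k := X 2 * (X 0 ^ 2 + X 0 * X 2 + X 2 ^ 2)

/-- The cubic `Y (x ^ 2 + x Y + Y ^ 2)`. -/
noncomputable def A2 : B k := X 1 * (X 0 ^ 2 + X 0 * X 1 + X 1 ^ 2)

/-- The ideal generated by the two cubics. -/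
noncomputable def II : Ideal (B k) := Ideal.span {A1 k, A2 k}

/-- Polynomials all of whose monomials have degree at least `m` in the last two variables. -/
def JJ (m : ℕ) : Ideal (B k) where
  carrier := {G | ∀ μ ∈ G.support, m ≤ μ 1 + μ 2}
  add_mem' := by
    classical
    intro p q hp hq μ hμ
    rcases Finset.mem_union.1 (support_add hμ) with h | h
    · exact hp μ h
    · exact hq μ h
  zero_mem' := by simp
  smul_mem' := by
    classical
    intro c p hp μ hμ
    rw [smul_eq_mul] at hμ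
    obtain ⟨x, hx, y, hy, rfl⟩ := Finset.mem_add.1 (support_mul c p hμ)
    have := hp y hy
    simp only [Finsupp.add_apply]
    omega

variable {k}

theorem mem_JJ {m : ℕ} {G : B k} : G ∈ JJ k m ↔ ∀ μ ∈ G.support, m ≤ μ 1 + μ 2 := Iff.rfl

theorem JJ_mono {m n : ℕ} (h : m ≤ n) {G : B k} (hG : G ∈ JJ k n) : G ∈ JJ k m :=
  fun μ hμ => h.trans (hG μ hμ)

theorem mul_mem_JJ {m n : ℕ} {G H : B k} (hG : G ∈ JJ k m) (hH : H ∈ JJ k n) :
    G * H ∈ JJ k (m + n) := by
  classical
  intro μ hμ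
  obtain ⟨x, hx, y, hy, rfl⟩ := Finset.mem_add.1 (support_mul G H hμ)
  have h1 := hG x hx
  have h2 := hH y hy
  simp only [Finsupp.add_apply]
  omega

theorem X_mem_JJ {i : Fin 3} (hi : i ≠ 0) : (X i : B k) ∈ JJ k 1 := by
  intro μ hμ
  rw [support_X, Finset.mem_singleton] at hμ
  subst hμ
  fin_cases i <;> simp_all

theorem A1_mem_JJ : A1 k ∈ JJ k 1 := Ideal.mul_mem_right _ _ (X_mem_JJ (by decide))

theorem A2_mem_JJ : A2 k ∈ JJ k 1 := Ideal.mul_mem_right _ _ (X_mem_JJ (by decide))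

theorem II_pow_le_JJ (a : ℕ) : II k ^ a ≤ JJ k a := by
  induction a with
  | zero =>
    intro G _ μ _
    exact Nat.zero_le _
  | succ a ih =>
    rw [pow_succ, Ideal.mul_le]
    intro r hr s hs
    refine mul_mem_JJ (ih hr) ?_
    have : II k ≤ JJ k 1 := by
      rw [II, Ideal.span_le]
      intro x hx
      rcases hx with rfl | rfl
      · exact A1_mem_JJ
      · exact A2_mem_JJ
    exact this hs

/-- The evaluation at the curve. -/
noncomputable def ev (e : ℕ) : B k →ₐ[k] Polynomial k :=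
  aeval ![(1 + Polynomial.X) ^ e, Polynomial.X ^ e + (1 + Polynomial.X) ^ e,
    1 + (1 + Polynomial.X) ^ e]

theorem ev_eq (e : ℕ) (G : B k) : ev e G = ∑ μ ∈ G.support,
    Polynomial.C (coeff μ G) * (((1 + Polynomial.X) ^ e) ^ (μ 0) *
      (Polynomial.X ^ e + (1 + Polynomial.X) ^ e) ^ (μ 1) *
      (1 + (1 + Polynomial.X) ^ e) ^ (μ 2)) := by
  rw [ev, aeval_def, eval₂_eq']
  refine Finset.sum_congr rfl fun μ _ => ?_
  rw [Fin.prod_univ_three]
  rfl

theorem natDegree_ev_le (e d : ℕ) (G : B k) (hG : G.IsHomogeneous d) :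
    (ev e G).natDegree ≤ e * d := by
  rw [ev_eq]
  refine Polynomial.natDegree_sum_le_of_forall_le _ _ fun μ hμ => ?_
  have hd : μ 0 + μ 1 + μ 2 = d := by
    have := hG (mem_support_iff.1 hμ)
    rw [Finsupp.weight_apply, Finsupp.sum_fintype _ _ (by simp)] at this
    simpa [Fin.sum_univ_three] using this
  have h1 : ((1 + Polynomial.X : Polynomial k) ^ e).natDegree ≤ e := by
    refine Polynomial.natDegree_pow_le_of_le e ?_ |>.trans (by rw [mul_one])
    exact (Polynomial.natDegree_add_le _ _).trans (by simp)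
  have h2 : (Polynomial.X ^ e + (1 + Polynomial.X : Polynomial k) ^ e).natDegree ≤ e :=
    (Polynomial.natDegree_add_le _ _).trans (max_le (Polynomial.natDegree_X_pow_le e) h1)
  have h3 : (1 + (1 + Polynomial.X : Polynomial k) ^ e).natDegree ≤ e :=
    (Polynomial.natDegree_add_le _ _).trans (max_le (by simp) h1)
  refine (Polynomial.natDegree_C_mul_le _ _).trans ?_
  refine (Polynomial.natDegree_mul_le).trans ?_
  refine (Nat.add_le_add_right (Polynomial.natDegree_mul_le) _).trans ?_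
  have g1 := Polynomial.natDegree_pow_le_of_le (μ 0) h1
  have g2 := Polynomial.natDegree_pow_le_of_le (μ 1) h2
  have g3 := Polynomial.natDegree_pow_le_of_le (μ 2) h3
  calc _ ≤ μ 0 * e + μ 1 * e + μ 2 * e := by gcongr
    _ = e * d := by rw [← hd]; ring

theorem ev_dvd_of_mem_JJ {e m : ℕ} {G : B k} (hG : G ∈ JJ k m) {z : k}
    (h1 : z ^ e + (1 + z) ^ e = 0) (h2 : 1 + (1 + z) ^ e = 0) :
    (Polynomial.X - Polynomial.C z) ^ m ∣ ev e G := by
  rw [ev_eq]
  refine Finset.dvd_sum fun μ hμ => ?_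
  have hm := hG μ hμ
  have d1 : (Polynomial.X - Polynomial.C z) ∣
      (Polynomial.X ^ e + (1 + Polynomial.X : Polynomial k) ^ e) := by
    rw [Polynomial.dvd_iff_isRoot]
    simpa [Polynomial.IsRoot] using h1
  have d2 : (Polynomial.X - Polynomial.C z) ∣
      (1 + (1 + Polynomial.X : Polynomial k) ^ e) := by
    rw [Polynomial.dvd_iff_isRoot]
    simpa [Polynomial.IsRoot] using h2
  refine Dvd.dvd.mul_left ?_ _
  rw [mul_assoc]
  refine Dvd.dvd.mul_left ?_ _
  refine (pow_dvd_pow _ hm).trans ?_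
  rw [pow_add]
  exact mul_dvd_mul (pow_dvd_pow_of_dvd d1 _) (pow_dvd_pow_of_dvd d2 _)

theorem ev_A1 [CharP k 2] (e : ℕ) : ev e (A1 k) = 1 + (1 + Polynomial.X) ^ (3 * e) := by
  have h2 : (2 : Polynomial k) = 0 := CharTwo.two_eq_zero
  simp only [ev, A1, map_mul, map_add, map_pow, aeval_X]
  simp only [Matrix.cons_val]
  rw [mul_comm 3 e, pow_mul]
  generalize ((1 + Polynomial.X : Polynomial k) ^ e) = u
  linear_combination (u ^ 3 + 3 * u ^ 2 + 2 * u) * h2

theorem ev_A2 [CharP k 2] (e : ℕ) :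
    ev e (A2 k) = Polynomial.X ^ (3 * e) + (1 + Polynomial.X) ^ (3 * e) := by
  have h2 : (2 : Polynomial k) = 0 := CharTwo.two_eq_zero
  simp only [ev, A2, map_mul, map_add, map_pow, aeval_X]
  simp only [Matrix.cons_val]
  rw [mul_comm 3 e, pow_mul, pow_mul]
  generalize ((1 + Polynomial.X : Polynomial k) ^ e) = u
  generalize ((Polynomial.X : Polynomial k) ^ e) = v
  linear_combination (u ^ 3 + 3 * u ^ 2 * v + 2 * u * v ^ 2) * h2

theorem ev_dvd_of_mem_II [CharP k 2] {e a : ℕ} {G : B k} (hG : G ∈ II k ^ a) {z : k}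
    (h1 : z ^ (3 * e) = 1) (h2 : (1 + z) ^ (3 * e) = 1) :
    (Polynomial.X - Polynomial.C z) ^ a ∣ ev e G := by
  have h3 : (II k).map (ev (k := k) e) ≤
      Ideal.span {Polynomial.X - Polynomial.C z} := by
    rw [II, Ideal.map_span, Ideal.span_le]
    rintro _ ⟨x, hx, rfl⟩
    rw [SetLike.mem_coe, Ideal.mem_span_singleton]
    rcases hx with rfl | rfl
    · rw [ev_A1, Polynomial.dvd_iff_isRoot]
      simp only [Polynomial.IsRoot, Polynomial.eval_add, Polynomial.eval_one, Polynomial.eval_pow,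
        Polynomial.eval_X, h2]
      exact CharTwo.add_self_eq_zero _
    · rw [ev_A2, Polynomial.dvd_iff_isRoot]
      simp only [Polynomial.IsRoot, Polynomial.eval_add, Polynomial.eval_one, Polynomial.eval_pow,
        Polynomial.eval_X, h1, h2]
      exact CharTwo.add_self_eq_zero _
  have h4 : ev e G ∈ ((II k).map (ev (k := k) e)) ^ a := by
    rw [← Ideal.map_pow]
    exact Ideal.mem_map_of_mem _ hG
  have h5 := Ideal.pow_right_mono h3 a h4
  rwa [Ideal.span_singleton_pow, Ideal.mem_span_singleton] at h5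

end

end Pool.Agent.Helper69.Spread
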