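import Pool.Agent.Helper69.SpreadCore

set_option autoImplicit false

namespace Pool.Agent.Helper69.Spread

open MvPolynomial

section
variable {k : Type} [Field k] [CharP k 2]

/-- Linear change of variables. -/
noncomputable def lc (k : Type) [Field k] : B k →ₐ[k] B k :=
  aeval ![X 0, X 1 + X 0, X 2 + X 0]

theorem lc_lc (G : B k) : lc k (lc k G) = G := by
  have : (lc k).comp (lc k) = AlgHom.id k (B k) := by
    apply MvPolynomial.algHom_ext
    intro i
    have h2 : (X 0 : B k) + X 0 = 0 := CharTwo.add_self_eq_zero _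
    fin_cases i
    · simp [lc]
    · simp [lc, add_assoc, h2]
    · simp [lc, add_assoc, h2]
  exact congrArg (fun f => f G) this

omit [CharP k 2] in
theorem lc_homogeneous {d : ℕ} {G : B k} (hG : G.IsHomogeneous d) :
    (lc k G).IsHomogeneous d := by
  have : ∀ i, (![X 0, X 1 + X 0, X 2 + X 0] : Fin 3 → B k) i |>.IsHomogeneous 1 := by
    intro i
    fin_cases i
    · exact isHomogeneous_X _ _
    · exact (isHomogeneous_X _ _).add (isHomogeneous_X _ _)
    · exact (isHomogeneous_X _ _).add (isHomogeneous_X _ _)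
  have h := hG.aeval _ this
  rwa [one_mul] at h

/-- The two-variable dehomogenization. -/
noncomputable def dh (k : Type) [Field k] (e : ℕ) : B k →ₐ[k] Polynomial (Polynomial k) :=
  aeval ![Polynomial.X, Polynomial.C (Polynomial.X ^ e), 1]

omit [CharP k 2] in
theorem dh_eq (e : ℕ) (G : B k) : dh k e G = ∑ μ ∈ G.support,
    Polynomial.C (Polynomial.C (coeff μ G) * Polynomial.X ^ (e * μ 1)) * Polynomial.X ^ (μ 0) := by
  rw [dh, aeval_def, eval₂_eq']
  refine Finset.sum_congr rfl fun μ _ => ?_
  rw [Fin.prod_univ_three]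
  simp only [Matrix.cons_val_zero, Matrix.cons_val_one, Matrix.cons_val]
  rw [one_pow, mul_one, map_mul, map_pow, map_pow, ← pow_mul, mul_comm (Polynomial.X ^ μ 0),
    mul_assoc]
  rfl

omit [CharP k 2] in
theorem degree_eq {d : ℕ} {G : B k} (hG : G.IsHomogeneous d) {μ : Fin 3 →₀ ℕ}
    (hμ : μ ∈ G.support) : μ 0 + μ 1 + μ 2 = d := by
  have := hG (mem_support_iff.1 hμ)
  rw [Finsupp.weight_apply, Finsupp.sum_fintype _ _ (by simp)] at this
  simpa [Fin.sum_univ_three] using this

omit [CharP k 2] in
theorem dh_ne_zero {e d : ℕ} (he : 0 < e) {G : B k} (hG : G.IsHomogeneous d) (h0 : G ≠ 0) :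
    dh k e G ≠ 0 := by
  obtain ⟨μ, hμ⟩ := exists_coeff_ne_zero h0
  intro h
  have hc : ((dh k e G).coeff (μ 0)).coeff (e * μ 1) = coeff μ G := by
    rw [dh_eq, Polynomial.finsetSum_coeff, Polynomial.finsetSum_coeff]
    rw [Finset.sum_eq_single μ]
    · rw [Polynomial.coeff_C_mul, Polynomial.coeff_X_pow, if_pos rfl, mul_one,
        Polynomial.coeff_C_mul, Polynomial.coeff_X_pow, if_pos rfl, mul_one]
    · intro ν hν hne
      rw [Polynomial.coeff_C_mul, Polynomial.coeff_X_pow]
      split_ifs with h1
      · rw [mul_one, Polynomial.coeff_C_mul, Polynomial.coeff_X_pow]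
        split_ifs with h2
        · exfalso
          apply hne
          have h3 : μ 1 = ν 1 := Nat.eq_of_mul_eq_mul_left he h2
          have h4 := degree_eq hG hν
          have h5 := degree_eq hG (mem_support_iff.2 hμ)
          ext i
          fin_cases i
          · exact h1.symm
          · exact h3.symm
          · show ν 2 = μ 2
            omega
        · rw [mul_zero]
      · rw [mul_zero, Polynomial.coeff_zero]
    · intro h
      rw [mem_support_iff, not_not] at h
      rw [h]; simp
  rw [h] at hc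
  simp at hc
  exact hμ hc.symm

omit [CharP k 2] in
theorem natDegree_dh_le {e d : ℕ} {G : B k} (hG : G.IsHomogeneous d) :
    (dh k e G).natDegree ≤ d := by
  rw [dh_eq]
  refine Polynomial.natDegree_sum_le_of_forall_le _ _ fun μ hμ => ?_
  have h4 := degree_eq hG hμ
  refine (Polynomial.natDegree_C_mul_X_pow_le _ _).trans (by omega)

theorem eval_dh (e : ℕ) (G : B k) {z : k} (hz : z ^ e = 1) :
    (dh k e (lc k G)).eval ((1 + Polynomial.C z * Polynomial.X) ^ e) =
      (ev e G).comp (Polynomial.C z * Polynomial.X) := by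
  let f1 : B k →ₐ[k] Polynomial k :=
    ((Polynomial.aeval ((1 + Polynomial.C z * Polynomial.X) ^ e : Polynomial k)).restrictScalars
      k : Polynomial (Polynomial k) →ₐ[k] Polynomial k).comp ((dh k e).comp (lc k))
  let f2 : B k →ₐ[k] Polynomial k :=
    (Polynomial.aeval (Polynomial.C z * Polynomial.X) : Polynomial k →ₐ[k] Polynomial k).comp (ev e)
  have : f1 = f2 := by
    apply MvPolynomial.algHom_ext
    intro i
    have h2 : ((1 + Polynomial.C z * Polynomial.X) ^ e : Polynomial k) +
      (1 + Polynomial.C z * Polynomial.X) ^ e = 0 := CharTwo.add_self_eq_zero _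
    have h3 : (Polynomial.C z * Polynomial.X : Polynomial k) ^ e = Polynomial.X ^ e := by
      rw [mul_pow, ← Polynomial.C_pow, hz, Polynomial.C_1, one_mul]
    fin_cases i
    · simp [f1, f2, lc, dh, ev]
    · simp [f1, f2, lc, dh, ev, h3]
    · simp [f1, f2, lc, dh, ev]
  have h := congrArg (fun f => f G) this
  simpa [f1, f2, Polynomial.aeval_def, Polynomial.comp] using h

theorem ev_ne_zero [IsAlgClosed k] {e d : ℕ} (he : Odd e) {G : B k} (hG : G.IsHomogeneous d)
    (h0 : G ≠ 0) (hd : d < e) : ev e G ≠ 0 := by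
  classical
  intro hev
  have he0 : 0 < e := he.pos
  have hlc0 : lc k G ≠ 0 := fun h => h0 (by rw [← lc_lc G, h, map_zero])
  have hH := dh_ne_zero (e := e) he0 (lc_homogeneous hG) hlc0
  have hdeg := natDegree_dh_le (e := e) (lc_homogeneous hG)
  -- the roots
  let S : Finset (Polynomial k) := (mu k e).image
    fun z => (1 + Polynomial.C z * Polynomial.X) ^ e
  have hinj : Set.InjOn (fun z : k => ((1 + Polynomial.C z * Polynomial.X) ^ e : Polynomial k))
      (mu k e : Set k) := by
    intro z _ w _ hzw
    simp only at hzw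
    have h1 : ∀ z : k, ((1 + Polynomial.C z * Polynomial.X) ^ e : Polynomial k).coeff 1 =
        e * z := by
      intro z
      have h2 : ((1 + Polynomial.C z * Polynomial.X) ^ e : Polynomial k).derivative.eval 0 =
          e * z := by
        simp [Polynomial.derivative_pow]
      rw [← h2, ← Polynomial.coeff_zero_eq_eval_zero, Polynomial.coeff_derivative]
      simp
    have h2 := congrArg (fun p => Polynomial.coeff p 1) hzw
    simp only [h1] at h2
    exact mul_left_cancel₀ (odd_cast_ne_zero he) h2
  have hcard : S.card = e := by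
    rw [Finset.card_image_of_injOn hinj, card_mu he]
  have hroot : ∀ s ∈ S, (dh k e (lc k G)).IsRoot s := by
    intro s hs
    obtain ⟨z, hz, rfl⟩ := Finset.mem_image.1 hs
    rw [mem_mu he0] at hz
    rw [Polynomial.IsRoot, eval_dh e G hz, hev, Polynomial.zero_comp]
  have h1 : S.card ≤ (dh k e (lc k G)).natDegree := by
    refine le_trans ?_ (Polynomial.card_roots' _)
    refine (Finset.card_le_card ?_).trans (Multiset.toFinset_card_le _)
    intro s hs
    rw [Multiset.mem_toFinset, Polynomial.mem_roots hH]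
    exact hroot s hs
  omega

omit [CharP k 2] in
theorem sum_rootMultiplicity_le {p : Polynomial k} (F : Finset k) :
    ∑ z ∈ F, p.rootMultiplicity z ≤ p.natDegree := by
  classical
  refine le_trans ?_ (Polynomial.card_roots' p)
  calc ∑ z ∈ F, p.rootMultiplicity z = ∑ z ∈ F, p.roots.count z := by
        refine Finset.sum_congr rfl fun z _ => ?_
        rw [Polynomial.count_roots]
    _ ≤ ∑ z ∈ F ∪ p.roots.toFinset, p.roots.count z :=
        Finset.sum_le_sum_of_subset Finset.subset_union_left
    _ = ∑ z ∈ p.roots.toFinset, p.roots.count z := by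
        symm
        apply Finset.sum_subset Finset.subset_union_right
        intro z _ hz
        rw [Multiset.mem_toFinset] at hz
        exact Multiset.count_eq_zero.2 hz
    _ = _ := Multiset.toFinset_sum_count_eq _

/-- The key bound. -/
theorem core [IsAlgClosed k] {b q m : ℕ} (hq : q = 2 ^ m) (hm : 2 ≤ m) (h3 : 3 * b = q + 1)
    {b' a : ℕ} (hb' : b' ≤ b) {G : B k} (hG : G.IsHomogeneous (b' + 3 * a)) (h0 : G ≠ 0)
    (hI : G ∈ II k ^ a) (hJ : G ∈ JJ k (a + q)) : b ^ 2 + 1 ≤ a + 3 * b := by
  classical
  have hq4 := four_le_q hq hm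
  have hbo := b_odd hq hm h3
  have hqo := qm_odd hq hm
  have hqe := q_even hq hm
  obtain ⟨c, hc⟩ : ∃ c, b = c + 1 := ⟨b - 1, by omega⟩
  have hqc : q = 3 * c + 2 := by omega
  have hc1 : 1 ≤ c := by omega
  have hq1 : q - 1 = 3 * c + 1 := by omega
  set e := b * (q - 1) with he
  have heo : Odd e := hbo.mul hqo
  have he' : e = (c + 1) * (3 * c + 1) := by rw [he, hc, hq1]
  by_cases hde : b' + 3 * a < e
  · have hev := ev_ne_zero heo hG h0 hde
    -- the sets
    have h3e : 3 * e = q * q - 1 := by
      have h1 : 3 * e = (q + 1) * (q - 1) := by rw [he, ← mul_assoc, h3]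
      rw [h1]
      have : (q + 1) * (q - 1) + 1 = q * q := by
        obtain ⟨t, ht⟩ : ∃ t, q = t + 1 := ⟨q - 1, by omega⟩
        subst ht
        simp only [Nat.add_sub_cancel]
        ring
      omega
    have h3eo : Odd (3 * e) := (by decide : Odd 3).mul heo
    let F : Finset k := (mu k (3 * e)).erase 1
    have hFcard : F.card = 3 * e - 1 := by
      rw [Finset.card_erase_of_mem, card_mu h3eo]
      rw [mem_mu h3eo.pos]; exact one_pow _
    have hfrob2 : ∀ z : k, (1 + z) ^ (q * q) = 1 + z ^ (q * q) := by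
      intro z
      rw [pow_mul, frob hq, one_pow, frob hq, one_pow, ← pow_mul]
    have hF : ∀ z ∈ F, z ^ (3 * e) = 1 ∧ (1 + z) ^ (3 * e) = 1 := by
      intro z hz
      rw [Finset.mem_erase, mem_mu h3eo.pos] at hz
      refine ⟨hz.2, ?_⟩
      have hne : (1 : k) + z ≠ 0 := fun h => hz.1 (CharTwo.add_eq_zero.1 h).symm
      apply mul_right_cancel₀ hne
      have hqq : 3 * e + 1 = q * q := by
        have : 1 ≤ q * q := Nat.mul_pos (by omega) (by omega)
        omega
      rw [← pow_succ, hqq, hfrob2, ← hqq, pow_succ, hz.2, one_mul, one_mul]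
    have hZF : zset k b q ⊆ F := by
      intro z hz
      rw [zset, Finset.mem_filter, mem_mu heo.pos] at hz
      rw [Finset.mem_erase, mem_mu h3eo.pos]
      refine ⟨hz.2.1, ?_⟩
      rw [mul_comm, pow_mul, hz.1, one_pow]
    have hmult : ∀ z ∈ F, a + (if z ∈ zset k b q then q else 0) ≤
        (ev e G).rootMultiplicity z := by
      intro z hz
      obtain ⟨h1, h2⟩ := hF z hz
      rw [Polynomial.le_rootMultiplicity_iff hev]
      split_ifs with hzz
      · rw [zset, Finset.mem_filter, mem_mu heo.pos] at hzz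
        refine ev_dvd_of_mem_JJ hJ ?_ ?_
        · rw [hzz.1, hzz.2.2]; exact CharTwo.add_self_eq_zero _
        · rw [hzz.2.2]; exact CharTwo.add_self_eq_zero _
      · exact ev_dvd_of_mem_II hI h1 h2
    have hsum := (Finset.sum_le_sum hmult).trans
      ((sum_rootMultiplicity_le F).trans (natDegree_ev_le e _ G hG))
    rw [Finset.sum_add_distrib, Finset.sum_const, smul_eq_mul, ← Finset.sum_filter,
      Finset.sum_const, smul_eq_mul, hFcard] at hsum
    have hfilter : F.filter (fun z => z ∈ zset k b q) = zset k b q := by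
      ext z
      rw [Finset.mem_filter]
      exact ⟨fun h => h.2, fun h => ⟨hZF h, h⟩⟩
    rw [hfilter] at hsum
    have hZ := card_zset (k := k) hq hm h3
    have h5 : ((q - 2) + (b - 1) * (b - 2)) * q ≤ (zset k b q).card * q :=
      Nat.mul_le_mul_right _ hZ
    have hb2 : b - 2 = c - 1 := by omega
    have hb1 : b - 1 = c := by omega
    have hqq2 : q - 2 = 3 * c := by omega
    rw [hb2, hb1, hqq2] at h5
    obtain ⟨f, hf⟩ : ∃ f, c = f + 1 := ⟨c - 1, by omega⟩
    have h6 : e * b' ≤ e * b := Nat.mul_le_mul_left _ hb'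
    have h7 : e * (b' + 3 * a) = e * b' + 3 * e * a := by ring
    have h8 : (3 * e - 1) * a + a = 3 * e * a := by
      have : 1 ≤ 3 * e := by have := heo.pos; omega
      calc (3 * e - 1) * a + a = (3 * e - 1 + 1) * a := by ring
        _ = 3 * e * a := by rw [Nat.sub_add_cancel this]
    rw [h7] at hsum
    have h9 : (zset k b q).card * q ≤ e * b + a := by omega
    have h10 := h5.trans h9
    subst hf
    simp only [Nat.add_sub_cancel] at h10
    rw [he', hqc, hc] at h10
    rw [hc]
    nlinarith [h10]
  · push Not at hde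
    have h1 : e ≤ b + 3 * a := by omega
    rw [he', hc] at h1
    rw [hc]
    nlinarith [h1]

end

end Pool.Agent.Helper69.Spread
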