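import Mathlib

set_option autoImplicit false

namespace Pool.Agent.Helper69.Spread

open Polynomial

variable {k : Type} [Field k] [CharP k 2] [IsAlgClosed k]

omit [CharP k 2] in
theorem exists_prim (n : ℕ) (hn : (n : k) ≠ 0) : ∃ ζ : k, IsPrimitiveRoot ζ n := by
  have : NeZero (n : k) := ⟨hn⟩
  have : NeZero n := ⟨fun h => hn (by simp [h])⟩
  exact HasEnoughRootsOfUnity.exists_primitiveRoot k n

omit [IsAlgClosed k] in
theorem odd_cast_ne_zero {n : ℕ} (hn : Odd n) : (n : k) ≠ 0 := by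
  intro h
  rw [CharP.cast_eq_zero_iff k 2] at h
  exact (Nat.not_even_iff_odd.2 hn) (even_iff_two_dvd.2 h)

/-- The `n`-th roots of unity. -/
noncomputable def mu (k : Type) [Field k] (n : ℕ) : Finset k := nthRootsFinset n (1 : k)

omit [CharP k 2] [IsAlgClosed k] in
theorem mem_mu {n : ℕ} (hn : 0 < n) {z : k} : z ∈ mu k n ↔ z ^ n = 1 :=
  mem_nthRootsFinset hn 1

theorem card_mu {n : ℕ} (hn : Odd n) : (mu k n).card = n := by
  obtain ⟨ζ, hζ⟩ := exists_prim (k := k) n (odd_cast_ne_zero hn)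
  exact hζ.card_nthRootsFinset

/-- The parameter set `Z`. -/
noncomputable def zset (k : Type) [Field k] (b q : ℕ) : Finset k := by
  classical
  exact (mu k (b * (q - 1))).filter (fun z => z ≠ 1 ∧ (1 + z) ^ (b * (q - 1)) = 1)

section
variable {b q m : ℕ} (hq : q = 2 ^ m) (hm : 2 ≤ m) (h3 : 3 * b = q + 1)

omit [IsAlgClosed k] in
include hq in
theorem frob (x y : k) : (x + y) ^ q = x ^ q + y ^ q := by
  subst hq
  exact add_pow_char_pow x y 2 m

include hq hm in
theorem q_even : Even q := by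
  subst hq
  exact (Nat.even_pow.2 ⟨even_two, by omega⟩)

include hq hm h3 in
theorem b_odd : Odd b := by
  have h := q_even hq hm
  rcases Nat.even_or_odd b with hb | hb
  · exfalso
    obtain ⟨c, hc⟩ := hb
    obtain ⟨d, hd⟩ := h
    omega
  · exact hb

include hq hm in
theorem four_le_q : 4 ≤ q := by
  subst hq
  calc 4 = 2 ^ 2 := by norm_num
    _ ≤ 2 ^ m := Nat.pow_le_pow_right (by norm_num) hm

include hq hm in
theorem qm_odd : Odd (q - 1) := by
  have h := q_even hq hm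
  have := four_le_q hq hm
  obtain ⟨d, hd⟩ := h
  exact ⟨d - 1, by omega⟩

omit [CharP k 2] [IsAlgClosed k] in
include hq hm in
theorem pow_q (x : k) : x ^ (q - 1) * x = x ^ q := by
  have := four_le_q hq hm
  rw [← pow_succ]
  congr 1
  omega

omit [IsAlgClosed k] in
include hq hm h3 in
/-- For `c ∈ μ_b`, `c ≠ 1`: `(1 + c) ^ (q - 1) * c = 1`. -/
theorem one_add_pow {c : k} (hc : c ^ b = 1) (hc1 : c ≠ 1) : (1 + c) ^ (q - 1) * c = 1 := by
  have hc0 : c ≠ 0 := by
    rintro rfl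
    have : 0 < b := by have := four_le_q hq hm; omega
    rw [zero_pow (by omega)] at hc
    exact zero_ne_one hc
  have hne : (1 : k) + c ≠ 0 := by
    intro h
    apply hc1
    have := CharTwo.add_eq_zero.1 h
    exact this.symm
  have hcq : c ^ q * c = 1 := by
    rw [← pow_succ, ← h3, mul_comm 3 b, pow_mul, hc, one_pow]
  have h1 : (1 + c) ^ q * c = 1 + c := by
    rw [frob hq, one_pow, add_mul, hcq, one_mul, add_comm]
  have h2 : (1 + c) ^ (q - 1) * c * (1 + c) = 1 * (1 + c) := by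
    rw [mul_right_comm, pow_q hq hm, h1, one_mul]
  exact mul_right_cancel₀ hne h2

/-- The parametrization. -/
noncomputable def par (k : Type) [Field k] (W c : k) : k := W * (1 + c) / (1 + c * W)

omit [IsAlgClosed k] in
include hq hm h3 in
theorem par_spec {W c : k} (hW : W ^ b = 1) (hW1 : W ≠ 1) (hc : c ^ b = 1) (hc1 : c ≠ 1)
    (hcW : c * W ≠ 1) :
    (par k W c) ^ (q - 1) * W = 1 ∧ (1 + par k W c) ^ (q - 1) = c ∧ par k W c ≠ 0 ∧
      par k W c ≠ 1 := by
  have hb : 0 < b := by have := four_le_q hq hm; omega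
  have hne : ∀ {c : k}, c ≠ 1 → (1 : k) + c ≠ 0 := fun {c} h1 h =>
    h1 (CharTwo.add_eq_zero.1 h).symm
  have hW0 : W ≠ 0 := by
    rintro rfl
    rw [zero_pow (by omega)] at hW
    exact zero_ne_one hW
  have hc0 : c ≠ 0 := by
    rintro rfl
    rw [zero_pow (by omega)] at hc
    exact zero_ne_one hc
  have hcWb : (c * W) ^ b = 1 := by rw [mul_pow, hc, hW, one_mul]
  have e1 := one_add_pow hq hm h3 hc hc1
  have e2 := one_add_pow hq hm h3 hcWb hcW
  have e3 := one_add_pow hq hm h3 hW hW1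
  have hWq : W ^ (q - 1) * W * W = 1 := by
    rw [pow_q hq hm, ← pow_succ, ← h3, mul_comm 3 b, pow_mul, hW, one_pow]
  have hd1 : (1 + c * W) ^ (q - 1) ≠ 0 := pow_ne_zero _ (hne hcW)
  have h1par : 1 + par k W c = (1 + W) / (1 + c * W) := by
    rw [par, eq_div_iff (hne hcW), add_mul, div_mul_cancel₀ _ (hne hcW)]
    have h2 : c * W + c * W = 0 := CharTwo.add_self_eq_zero _
    linear_combination h2
  refine ⟨?_, ?_, ?_, ?_⟩
  · rw [par, div_pow, mul_pow, div_mul_eq_mul_div, div_eq_one_iff_eq hd1]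
    have : W ^ (q - 1) * (1 + c) ^ (q - 1) * W * (c * W) =
        (1 + c * W) ^ (q - 1) * (c * W) := by
      rw [e2]
      linear_combination hWq * ((1 + c) ^ (q - 1) * c) + e1
    exact mul_right_cancel₀ (mul_ne_zero hc0 hW0) this
  · rw [h1par, div_pow, div_eq_iff hd1]
    have : (1 + W) ^ (q - 1) * W = c * (1 + c * W) ^ (q - 1) * W := by
      rw [e3]; linear_combination -e2
    exact mul_right_cancel₀ hW0 this
  · rw [par]
    exact div_ne_zero (mul_ne_zero hW0 (hne hc1)) (hne hcW)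
  · intro h
    rw [h] at h1par
    have h2 : (1 : k) + 1 = 0 := CharTwo.add_self_eq_zero 1
    rw [h2] at h1par
    exact (div_ne_zero (hne hW1) (hne hcW)) h1par.symm

include hq hm h3 in
theorem card_zset : (q - 2) + (b - 1) * (b - 2) ≤ (zset k b q).card := by
  classical
  have hq4 := four_le_q hq hm
  have hbo := b_odd hq hm h3
  have hqo := qm_odd hq hm
  have hb : 0 < b := by omega
  have he : 0 < b * (q - 1) := Nat.mul_pos hb (by omega)
  -- first part
  let S1 : Finset k := (mu k (q - 1)).erase 1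
  let S2 : Finset (Σ _ : k, k) := ((mu k b).erase 1).sigma fun W => ((mu k b).erase 1).erase W⁻¹
  let S3 : Finset k := S2.image fun p => par k p.1 p.2
  have hmem2 : ∀ p ∈ S2, p.1 ^ b = 1 ∧ p.1 ≠ 1 ∧ p.2 ^ b = 1 ∧ p.2 ≠ 1 ∧ p.2 * p.1 ≠ 1 := by
    rintro ⟨W, c⟩ hp
    simp only [S2, Finset.mem_sigma, Finset.mem_erase, mem_mu hb] at hp
    obtain ⟨⟨hW1, hW⟩, hcW, hc1, hc⟩ := hp
    refine ⟨hW, hW1, hc, hc1, fun h => hcW (eq_inv_of_mul_eq_one_left h)⟩
  have hinj : Set.InjOn (fun p : Σ _ : k, k => par k p.1 p.2) (S2 : Set (Σ _ : k, k)) := by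
    rintro ⟨W, c⟩ hp ⟨W', c'⟩ hp' heq
    obtain ⟨h1, h2, h3', h4, h5⟩ := hmem2 _ hp
    obtain ⟨g1, g2, g3, g4, g5⟩ := hmem2 _ hp'
    obtain ⟨a1, a2, a3, -⟩ := par_spec hq hm h3 h1 h2 h3' h4 h5
    obtain ⟨b1, b2, -, -⟩ := par_spec hq hm h3 g1 g2 g3 g4 g5
    simp only at heq a1 a2 a3 b1 b2
    have hc : c = c' := by rw [← a2, ← b2, heq]
    have hW : W = W' := by
      rw [← heq] at b1
      exact mul_left_cancel₀ (pow_ne_zero _ a3) (a1.trans b1.symm)
    subst hc hW
    rfl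
  have hcard1 : S1.card = q - 2 := by
    rw [Finset.card_erase_of_mem, card_mu hqo]
    · omega
    · rw [mem_mu (by omega)]; exact one_pow _
  have hcard2 : S2.card = (b - 1) * (b - 2) := by
    rw [Finset.card_sigma]
    have : ∀ W ∈ (mu k b).erase 1, (((mu k b).erase 1).erase W⁻¹).card = b - 2 := by
      intro W hW
      rw [Finset.mem_erase, mem_mu hb] at hW
      rw [Finset.card_erase_of_mem, Finset.card_erase_of_mem, card_mu hbo]
      · omega
      · rw [mem_mu hb]; exact one_pow _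
      · rw [Finset.mem_erase, mem_mu hb, inv_pow, hW.2, inv_one]
        exact ⟨fun h => hW.1 (by rw [← inv_inv W, h, inv_one]), rfl⟩
    rw [Finset.sum_congr rfl this, Finset.sum_const, smul_eq_mul, Finset.card_erase_of_mem,
      card_mu hbo]
    rw [mem_mu hb]; exact one_pow _
  have hcard3 : S3.card = (b - 1) * (b - 2) := by
    rw [Finset.card_image_of_injOn hinj, hcard2]
  have hdisj : Disjoint S1 S3 := by
    rw [Finset.disjoint_left]
    intro z hz1 hz3
    obtain ⟨p, hp, rfl⟩ := Finset.mem_image.1 hz3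
    obtain ⟨h1, h2, h3', h4, h5⟩ := hmem2 _ hp
    obtain ⟨a1, a2, a3, -⟩ := par_spec hq hm h3 h1 h2 h3' h4 h5
    rw [Finset.mem_erase, mem_mu (by omega)] at hz1
    rw [hz1.2, one_mul] at a1
    exact h2 a1
  rw [← hcard1, ← hcard3, ← Finset.card_union_of_disjoint hdisj]
  apply Finset.card_le_card
  intro z hz
  rw [zset, Finset.mem_filter, mem_mu he]
  rcases Finset.mem_union.1 hz with hz | hz
  · rw [Finset.mem_erase, mem_mu (by omega)] at hz
    have hz0 : z ≠ 0 := by
      rintro rfl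
      rw [zero_pow (by omega)] at hz
      exact zero_ne_one hz.2
    have hne : (1 : k) + z ≠ 0 := fun h => hz.1 (CharTwo.add_eq_zero.1 h).symm
    have h1 : (1 + z) ^ (q - 1) = 1 := by
      apply mul_right_cancel₀ hne
      rw [pow_q hq hm, frob hq, one_pow, ← pow_q hq hm z, hz.2, one_mul, one_mul]
    refine ⟨?_, hz.1, ?_⟩
    · rw [mul_comm, pow_mul, hz.2, one_pow]
    · rw [mul_comm, pow_mul, h1, one_pow]
  · obtain ⟨p, hp, rfl⟩ := Finset.mem_image.1 hz
    obtain ⟨h1, h2, h3', h4, h5⟩ := hmem2 _ hp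
    obtain ⟨a1, a2, a3, a4⟩ := par_spec hq hm h3 h1 h2 h3' h4 h5
    refine ⟨?_, a4, ?_⟩
    · have hb1 : ((par k p.1 p.2) ^ (q - 1) * p.1) ^ b = 1 := by rw [a1, one_pow]
      rw [mul_pow, h1, mul_one, ← pow_mul] at hb1
      rw [mul_comm]; exact hb1
    · rw [mul_comm, pow_mul, a2, h3']

end

end Pool.Agent.Helper69.Spread
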