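import Pool.Agent.Helper69.SpreadCore2

set_option autoImplicit false

namespace Pool.Agent.Helper69.Spread

open MvPolynomial

section
variable {k : Type} [Field k]

/-- Digits in base `P` are unique. -/
theorem digits {D : Type} [CommRing D] [IsDomain D] (P : Polynomial D) (hP : P.Monic) {n : ℕ}
    (hn : P.natDegree = n) (a : ℕ) (r : ℕ → Polynomial D)
    (hr : ∀ i, (r i).degree < n)
    (h : ∑ i ∈ Finset.range (a + 1), P ^ i * r i = 0) : ∀ i ≤ a, r i = 0 := by
  induction a generalizing r with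
  | zero =>
    intro i hi
    obtain rfl : i = 0 := by omega
    simpa using h
  | succ a ih =>
    rw [Finset.sum_range_succ'] at h
    have h1 : ∑ i ∈ Finset.range (a + 1), P ^ (i + 1) * r (i + 1) =
        P * ∑ i ∈ Finset.range (a + 1), P ^ i * r (i + 1) := by
      rw [Finset.mul_sum]
      refine Finset.sum_congr rfl fun i _ => ?_
      ring
    rw [h1, pow_zero, one_mul] at h
    have h2 : ∑ i ∈ Finset.range (a + 1), P ^ i * r (i + 1) = 0 := by
      by_contra hne
      have h3 : r 0 = P * -(∑ i ∈ Finset.range (a + 1), P ^ i * r (i + 1)) := by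
        linear_combination h
      have h4 := hr 0
      rw [h3, Polynomial.degree_mul, Polynomial.degree_neg,
        Polynomial.degree_eq_natDegree hP.ne_zero, hn, Polynomial.degree_eq_natDegree hne] at h4
      have h5 : ((n + (∑ i ∈ Finset.range (a + 1), P ^ i * r (i + 1)).natDegree : ℕ) :
        WithBot ℕ) < n := by exact_mod_cast h4
      rw [Nat.cast_lt] at h5
      omega
    rw [h2, mul_zero, zero_add] at h
    have h6 := ih (fun i => r (i + 1)) (fun i => hr _) h2
    intro i hi
    rcases i with _ | i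
    · exact h
    · exact h6 i (by omega)

/-- Index type of the monomials of degree `b` with exponent of `Z` at most two. -/
abbrev Ix (b : ℕ) : Type := Σ c : Fin 3, Fin (b + 1 - c)

theorem card_Ix {b : ℕ} (hb : 1 ≤ b) : Fintype.card (Ix b) = 3 * b := by
  rw [Fintype.card_sigma, Fin.sum_univ_three]
  simp only [Fintype.card_fin, Fin.val_zero, Fin.val_one, Fin.val_two]
  omega

/-- The family of forms. -/
noncomputable def fam (k : Type) [Field k] (a b : ℕ) (p : Fin (a + 1) × Ix b) : B k :=
  A1 k ^ (p.1 : ℕ) * A2 k ^ (a - (p.1 : ℕ)) *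
    (X 0 ^ (b - p.2.1 - p.2.2) * X 1 ^ (p.2.2 : ℕ) * X 2 ^ (p.2.1 : ℕ))

/-- The span map. -/
noncomputable def Phi (k : Type) [Field k] (a b : ℕ) : (Fin (a + 1) × Ix b → k) →ₗ[k] B k :=
  Fintype.linearCombination k (fam k a b)

theorem Phi_apply (a b : ℕ) (v : Fin (a + 1) × Ix b → k) :
    Phi k a b v = ∑ p, v p • fam k a b p := by
  rw [Phi, Fintype.linearCombination_apply]

theorem A1_hom : (A1 k).IsHomogeneous 3 := by
  refine (isHomogeneous_X _ _).mul (n := 2) ?_
  refine IsHomogeneous.add (IsHomogeneous.add (isHomogeneous_X_pow _ _) ?_)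
    (isHomogeneous_X_pow _ _)
  exact (isHomogeneous_X _ _).mul (isHomogeneous_X _ _)

theorem A2_hom : (A2 k).IsHomogeneous 3 := by
  refine (isHomogeneous_X _ _).mul (n := 2) ?_
  refine IsHomogeneous.add (IsHomogeneous.add (isHomogeneous_X_pow _ _) ?_)
    (isHomogeneous_X_pow _ _)
  exact (isHomogeneous_X _ _).mul (isHomogeneous_X _ _)

theorem fam_hom (a b : ℕ) (p : Fin (a + 1) × Ix b) : (fam k a b p).IsHomogeneous (b + 3 * a) := by
  obtain ⟨⟨i, hi⟩, ⟨c, hc⟩, ⟨β, hβ⟩⟩ := p
  have h1 : (fam k a b ⟨⟨i, hi⟩, ⟨c, hc⟩, ⟨β, hβ⟩⟩).IsHomogeneous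
      (3 * i + 3 * (a - i) + ((b - c - β) + β + c)) := by
    refine ((A1_hom.pow _).mul (A2_hom.pow _)).mul ?_
    exact ((isHomogeneous_X_pow _ _).mul (isHomogeneous_X_pow _ _)).mul (isHomogeneous_X_pow _ _)
  have h2 : 3 * i + 3 * (a - i) + ((b - c - β) + β + c) = b + 3 * a := by
    simp only at hβ
    omega
  rwa [h2] at h1

theorem fam_mem (a b : ℕ) (p : Fin (a + 1) × Ix b) : fam k a b p ∈ II k ^ a := by
  refine Ideal.mul_mem_right _ _ ?_
  have h1 : A1 k ∈ II k := Ideal.subset_span (by simp)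
  have h2 : A2 k ∈ II k := Ideal.subset_span (by simp)
  have h3 := Ideal.mul_mem_mul (Ideal.pow_mem_pow h1 (p.1 : ℕ)) (Ideal.pow_mem_pow h2 (a - (p.1 : ℕ)))
  rw [← pow_add] at h3
  have h4 : (p.1 : ℕ) + (a - (p.1 : ℕ)) = a := by have := p.1.2; omega
  rwa [h4] at h3

/-- Specialization used for independence. -/
noncomputable def Om (k : Type) [Field k] : B k →ₐ[k] Polynomial (Polynomial k) :=
  aeval ![1, Polynomial.C Polynomial.X, Polynomial.X]

theorem Phi_injective (a b : ℕ) : Function.Injective (Phi k a b) := by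
  rw [← LinearMap.ker_eq_bot, LinearMap.ker_eq_bot']
  intro v hv
  let P : Polynomial (Polynomial k) := Polynomial.X ^ 3 + Polynomial.X ^ 2 + Polynomial.X
  let α : Polynomial k := Polynomial.X * (1 + Polynomial.X + Polynomial.X ^ 2)
  have hP : P.Monic := by
    show (Polynomial.X ^ 3 + Polynomial.X ^ 2 + Polynomial.X : Polynomial (Polynomial k)).Monic
    monicity!
  have hPd : P.natDegree = 3 := by
    show (Polynomial.X ^ 3 + Polynomial.X ^ 2 + Polynomial.X : Polynomial (Polynomial k)).natDegree = 3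
    compute_degree!
  have hα : α ≠ 0 := by
    have h1 : (1 + Polynomial.X + Polynomial.X ^ 2 : Polynomial k).coeff 0 = 1 := by
      simp [Polynomial.coeff_one, Polynomial.coeff_X, Polynomial.coeff_X_pow]
    refine mul_ne_zero Polynomial.X_ne_zero fun h => ?_
    rw [h] at h1
    simp at h1
  have hO1 : Om k (A1 k) = P := by
    simp only [Om, A1, map_mul, map_add, map_pow, aeval_X, Matrix.cons_val, P]
    ring
  have hO2 : Om k (A2 k) = Polynomial.C α := by
    simp only [Om, A2, map_mul, map_add, map_pow, aeval_X, Matrix.cons_val, α, map_one]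
    ring
  let r : ℕ → Polynomial (Polynomial k) := fun i =>
    if h : i < a + 1 then
      Polynomial.C (α ^ (a - i)) * ∑ x : Ix b, Polynomial.C (Polynomial.C (v (⟨i, h⟩, x)) *
        Polynomial.X ^ (x.2 : ℕ)) * Polynomial.X ^ (x.1 : ℕ)
    else 0
  have hr : ∀ i, (r i).degree < (3 : ℕ) := by
    intro i
    simp only [r]
    split_ifs with h
    · rw [Polynomial.degree_C_mul (pow_ne_zero _ hα)]
      refine lt_of_le_of_lt (Polynomial.degree_sum_le _ _) ?_
      rw [Finset.sup_lt_iff (by exact WithBot.bot_lt_coe _)]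
      intro x _
      refine lt_of_le_of_lt (Polynomial.degree_C_mul_X_pow_le _ _) ?_
      exact_mod_cast x.1.2
    · rw [Polynomial.degree_zero]; exact WithBot.bot_lt_coe _
  have hsum : ∑ i ∈ Finset.range (a + 1), P ^ i * r i = 0 := by
    have h1 : Om k (Phi k a b v) = 0 := by rw [hv, map_zero]
    rw [Phi_apply, map_sum, Fintype.sum_prod_type] at h1
    rw [Finset.sum_range]
    refine (Finset.sum_congr rfl ?_).trans h1
    rintro ⟨i, hi⟩ _
    simp only [r, dif_pos hi]
    rw [Finset.mul_sum, Finset.mul_sum]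
    refine Finset.sum_congr rfl fun x _ => ?_
    have hf : Om k (fam k a b (⟨i, hi⟩, x)) = P ^ i * Polynomial.C α ^ (a - i) *
        (Polynomial.C Polynomial.X ^ (x.2 : ℕ) * Polynomial.X ^ (x.1 : ℕ)) := by
      simp only [fam, map_mul, map_pow, hO1, hO2]
      simp only [Om, aeval_X, Matrix.cons_val, one_pow, one_mul]
    rw [map_smul, hf, Algebra.smul_def]
    simp only [Polynomial.algebraMap_apply, Algebra.algebraMap_self, RingHom.id_apply, map_mul,
      map_pow]
    ring
  have hz := digits P hP hPd a r hr hsum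
  funext ⟨⟨i, hi⟩, ⟨c, β⟩⟩
  have h1 := hz i (by omega)
  simp only [r, dif_pos hi] at h1
  have h2 : ∑ x : Ix b, Polynomial.C (Polynomial.C (v (⟨i, hi⟩, x)) *
        Polynomial.X ^ (x.2 : ℕ)) * Polynomial.X ^ (x.1 : ℕ) = 0 := by
    rcases mul_eq_zero.1 h1 with h | h
    · exfalso
      rw [Polynomial.C_eq_zero] at h
      exact pow_ne_zero _ hα h
    · exact h
  have h3 := congrArg (fun p => (Polynomial.coeff p (c : ℕ)).coeff (β : ℕ)) h2
  simp only [Polynomial.finsetSum_coeff, Polynomial.coeff_zero] at h3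
  rw [Finset.sum_eq_single ⟨c, β⟩] at h3
  · rw [Polynomial.coeff_C_mul, Polynomial.coeff_X_pow, if_pos rfl, mul_one,
        Polynomial.coeff_C_mul, Polynomial.coeff_X_pow, if_pos rfl, mul_one] at h3
    exact h3
  · rintro ⟨c', β'⟩ _ hne
    rw [Polynomial.coeff_C_mul, Polynomial.coeff_X_pow]
    split_ifs with h4
    · have h4' : c = c' := Fin.ext h4
      subst h4'
      rw [mul_one, Polynomial.coeff_C_mul, Polynomial.coeff_X_pow]
      split_ifs with h5
      · exfalso
        have h5' : β = β' := Fin.ext h5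
        subst h5'
        exact hne rfl
      · rw [mul_zero]
    · rw [mul_zero, Polynomial.coeff_zero]
  · intro h
    exact absurd (Finset.mem_univ _) h

end

end Pool.Agent.Helper69.Spread
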