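import Pool.Agent.Helper69.SpreadExist

set_option autoImplicit false

namespace Pool.Agent.Helper69.Spread

open MvPolynomial

section
variable {k : Type} [Field k]

/-- Existence of a form with high vanishing. -/
theorem exists_form {b q : ℕ} (hb : 1 ≤ b) (h3 : 3 * b = q + 1) :
    ∃ (a : ℕ) (G : B k), G ≠ 0 ∧ G.IsHomogeneous (b + 3 * a) ∧ G ∈ II k ^ a ∧ G ∈ JJ k (a + q) := by
  set a := q ^ 2 with ha
  set d := b + 3 * a with hd
  let Cx : Type := Σ s : Fin q, Fin (a + s + 1)
  let mon : Cx → (Fin 3 →₀ ℕ) := fun p =>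
    Finsupp.equivFunOnFinite.symm ![d - (a + p.1), p.2, a + p.1 - p.2]
  let T : (Fin (a + 1) × Ix b → k) →ₗ[k] (Cx → k) :=
    LinearMap.pi fun p => (lcoeff k (mon p)).comp (Phi k a b)
  have hfin : Module.finrank k (Cx → k) < Module.finrank k (Fin (a + 1) × Ix b → k) := by
    rw [Module.finrank_fintype_fun_eq_card, Module.finrank_fintype_fun_eq_card,
      Fintype.card_prod, card_Ix hb, h3, Fintype.card_fin]
    have h1 : Fintype.card Cx ≤ q * (a + q) := by
      rw [Fintype.card_sigma]
      calc ∑ s : Fin q, Fintype.card (Fin (a + s + 1)) ≤ ∑ _s : Fin q, (a + q) := by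
            refine Finset.sum_le_sum fun s _ => ?_
            rw [Fintype.card_fin]
            have := s.2
            omega
        _ = q * (a + q) := by simp
    refine lt_of_le_of_lt h1 ?_
    rw [ha]
    nlinarith [sq_nonneg q]
  obtain ⟨v, hv, hv0⟩ := (Submodule.ne_bot_iff _).1 (LinearMap.ker_ne_bot_of_finrank_lt hfin)
  have hT : T v = 0 := hv
  refine ⟨a, Phi k a b v, ?_, ?_, ?_, ?_⟩
  · intro h
    exact hv0 (Phi_injective a b (h.trans (map_zero _).symm))
  · rw [Phi_apply]
    refine IsHomogeneous.sum _ _ _ fun p _ => ?_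
    rw [smul_eq_C_mul]
    exact (fam_hom a b p).C_mul _
  · rw [Phi_apply]
    refine Ideal.sum_mem _ fun p _ => ?_
    rw [smul_eq_C_mul]
    exact Ideal.mul_mem_left _ _ (fam_mem a b p)
  · have hI : Phi k a b v ∈ II k ^ a := by
      rw [Phi_apply]
      refine Ideal.sum_mem _ fun p _ => ?_
      rw [smul_eq_C_mul]
      exact Ideal.mul_mem_left _ _ (fam_mem a b p)
    have hh : (Phi k a b v).IsHomogeneous d := by
      rw [Phi_apply]
      refine IsHomogeneous.sum _ _ _ fun p _ => ?_
      rw [smul_eq_C_mul]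
      exact (fam_hom a b p).C_mul _
    intro μ hμ
    have h1 := II_pow_le_JJ a hI μ hμ
    have h2 := degree_eq hh hμ
    by_contra hlt
    push Not at hlt
    have h5 : a + (μ 1 + μ 2 - a) = μ 1 + μ 2 := by omega
    let p : Cx := ⟨⟨μ 1 + μ 2 - a, by omega⟩, ⟨μ 1, by simp only; omega⟩⟩
    have hp : mon p = μ := by
      ext i
      simp only [mon, p, Finsupp.equivFunOnFinite_symm_apply_apply]
      fin_cases i
      · show d - (a + (μ 1 + μ 2 - a)) = μ 0
        omega
      · rfl
      · show a + (μ 1 + μ 2 - a) - μ 1 = μ 2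
        omega
    have h3 := congrFun hT p
    simp only [T, LinearMap.pi_apply, LinearMap.comp_apply, lcoeff_apply, Pi.zero_apply, hp] at h3
    exact (mem_support_iff.1 hμ) h3

end

end Pool.Agent.Helper69.Spread
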