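import Pool.Agent.Helper69.SpreadMain

set_option autoImplicit false

namespace Pool.Agent.Helper69.Spread

open MvPolynomial SymbolicSpread Filter

/-- The sequence of powers of two. -/
def qs (j : ℕ) : ℕ := 2 ^ (2 * j + 3)

theorem three_dvd (j : ℕ) : ∃ b, 1 ≤ b ∧ 3 * b = qs j + 1 := by
  have : 3 ∣ qs j + 1 := by
    unfold qs
    induction j with
    | zero => norm_num
    | succ j ih =>
      have h : 2 ^ (2 * (j + 1) + 3) + 1 = 4 * (2 ^ (2 * j + 3) + 1) - 3 := by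
        have : 2 ^ (2 * (j + 1) + 3) = 4 * 2 ^ (2 * j + 3) := by ring
        omega
      omega
  obtain ⟨b, hb⟩ := this
  exact ⟨b, by omega, hb.symm⟩

theorem qs_tendsto : Tendsto qs atTop atTop := by
  apply StrictMono.tendsto_atTop
  intro i j hij
  unfold qs
  exact Nat.pow_lt_pow_right (by norm_num) (by omega)

theorem a_bound {b q a : ℕ} (h3 : 3 * b = q + 1) (hq : 12 ≤ q) (ha : b ^ 2 + 1 ≤ a + 3 * b) :
    (q : ℝ) ^ 2 / 36 ≤ a := by
  have h3' : (3 : ℝ) * b = q + 1 := by exact_mod_cast h3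
  have ha' : (b : ℝ) ^ 2 + 1 ≤ a + 3 * b := by exact_mod_cast ha
  have hq' : (12 : ℝ) ≤ q := by exact_mod_cast hq
  have hb : (b : ℝ) = (q + 1) / 3 := by linarith
  rw [hb] at ha'
  nlinarith

theorem main_bound (k : Type) [Field k] [CharP k 2] [IsAlgClosed k] (r : ℕ) (hr : 0 < r) :
    ∃ (R : Type) (_ : CommRing R) (_ : IsDomain R) (_ : IsLocalRing R)
    (_ : IsNoetherianRing R) (P : Ideal R), P.IsPrime ∧
    ringKrullDim R ≤ ((r + 4 : ℕ) : WithBot ℕ∞) ∧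
    ∀ j : ℕ, 1 ≤ j → ((qs j : ℝ) ^ 2 / (36 * r)) ^ r ≤
      (Submodule.spanFinrank (symbolicPower P (qs j)) : ℝ) := by
  obtain ⟨R, i1, i2, i3, i4, P, hP, hdim, hmain⟩ := family k r
  refine ⟨R, i1, i2, i3, i4, P, hP, hdim, ?_⟩
  intro j hj
  obtain ⟨b, hb1, h3⟩ := three_dvd j
  obtain ⟨a, G, hG0, hGh, hGI, hGJ⟩ := exists_form (k := k) hb1 h3
  obtain ⟨b', a', hSt, hmin, hmina⟩ := exists_min (k := k) (qs j) ⟨b, a, G, hG0, hGh, hGI, hGJ⟩
  have hb' : b' ≤ b := hmin b a ⟨G, hG0, hGh, hGI, hGJ⟩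
  have h1 := hmain (qs j) b' a' hSt hmin hmina
  obtain ⟨G', hG0', hGh', hGI', hGJ'⟩ := hSt
  have h2 : b ^ 2 + 1 ≤ a' + 3 * b :=
    core (q := qs j) (m := 2 * j + 3) rfl (by omega) h3 hb' hGh' hG0' hGI' hGJ'
  have hq : 12 ≤ qs j := by
    unfold qs
    calc 12 ≤ 2 ^ (2 * 1 + 3) := by norm_num
      _ ≤ 2 ^ (2 * j + 3) := Nat.pow_le_pow_right (by norm_num) (by omega)
  have h3' := a_bound h3 hq h2
  have hr' : (0 : ℝ) < r := by exact_mod_cast hr
  have h4 : (qs j : ℝ) ^ 2 / (36 * r) ≤ ((a' / r + 1 : ℕ) : ℝ) := by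
    have h5 : (a' : ℝ) < r * ((a' / r : ℕ) + 1) := by
      have := Nat.lt_mul_div_succ a' hr
      exact_mod_cast this
    rw [div_le_iff₀ (by positivity)]
    push_cast
    nlinarith
  calc ((qs j : ℝ) ^ 2 / (36 * r)) ^ r ≤ (((a' / r + 1 : ℕ) : ℝ)) ^ r := by gcongr
    _ = (((a' / r + 1) ^ r : ℕ) : ℝ) := by push_cast; ring
    _ ≤ _ := by exact_mod_cast h1

theorem spread_ge {R : Type} [CommRing R] (P : Ideal R) (r : ℕ) (hr : 0 < r)
    (h : ∀ j : ℕ, 1 ≤ j → ((qs j : ℝ) ^ 2 / (36 * r)) ^ r ≤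
      (Submodule.spanFinrank (symbolicPower P (qs j)) : ℝ)) :
    ((2 * r + 1 : ℕ) : EReal) ≤ symbolicAnalyticSpread P := by
  apply le_sInf
  rintro _ ⟨t, ht, rfl⟩
  have ht : (fun n : ℕ => (Submodule.spanFinrank (symbolicPower P n) : ℝ)) =O[Filter.atTop]
      (fun n : ℕ => (n : ℝ) ^ (t - 1)) := ht
  have hcast : (((2 * r + 1 : ℕ) : ℝ) : EReal) = ((2 * r + 1 : ℕ) : EReal) := rfl
  rw [← hcast]
  simp only [EReal.coe_le_coe_iff]
  by_contra hcon
  push Not at hcon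
  obtain ⟨C, hC⟩ := ht.bound
  have h1 := qs_tendsto.eventually hC
  have h2 : Tendsto (fun j => (qs j : ℝ) ^ ((2 * r + 1 : ℝ) - t)) atTop atTop := by
    have h3 : (0 : ℝ) < (2 * r + 1 : ℝ) - t := by
      push_cast at hcon
      linarith
    exact (tendsto_rpow_atTop h3).comp (tendsto_natCast_atTop_atTop.comp qs_tendsto)
  have hr' : (0 : ℝ) < r := by exact_mod_cast hr
  obtain ⟨j, hj1, hj2, hj3⟩ := (h1.and ((eventually_ge_atTop 1).and
    (h2.eventually_gt_atTop (C * (36 * r) ^ r)))).exists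
  have hq : (0 : ℝ) < qs j := by
    have : 0 < qs j := by unfold qs; positivity
    exact_mod_cast this
  have h4 := h j hj2
  rw [Real.norm_of_nonneg (by positivity), Real.norm_of_nonneg (by positivity)] at hj1
  have h5 := h4.trans hj1
  rw [div_pow, div_le_iff₀ (by positivity), ← pow_mul] at h5
  have h6 : (qs j : ℝ) ^ ((2 * r + 1 : ℝ) - t) * (qs j : ℝ) ^ (t - 1) = (qs j : ℝ) ^ (2 * r) := by
    rw [← Real.rpow_add hq, ← Real.rpow_natCast]
    congr 1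
    push_cast
    ring
  have h7 : (0 : ℝ) < (qs j : ℝ) ^ (t - 1) := Real.rpow_pos_of_pos hq _
  rw [← h6] at h5
  have h8 : (qs j : ℝ) ^ ((2 * r + 1 : ℝ) - t) ≤ C * (36 * r) ^ r := by
    have : (qs j : ℝ) ^ ((2 * r + 1 : ℝ) - t) * (qs j : ℝ) ^ (t - 1) ≤
        (C * (36 * r) ^ r) * (qs j : ℝ) ^ (t - 1) := by
      calc _ ≤ _ := h5
        _ = _ := by ring
    exact le_of_mul_le_mul_right this h7
  linarith

theorem main (N : ℕ) : ∃ (R : Type) (_ : CommRing R) (_ : IsDomain R) (_ : IsLocalRing R)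
    (_ : IsNoetherianRing R) (P : Ideal R) (d : ℕ), P.IsPrime ∧ ringKrullDim R = d ∧
      ((d + N : ℕ) : EReal) < symbolicAnalyticSpread P := by
  obtain ⟨R, i1, i2, i3, i4, P, hP, hdim, hmain⟩ :=
    main_bound (AlgebraicClosure (ZMod 2)) (N + 4) (by omega)
  have h1 := spread_ge P (N + 4) (by omega) hmain
  obtain ⟨d, hd⟩ : ∃ d : ℕ, ringKrullDim R = d := by
    have hbot : ringKrullDim R ≠ ⊥ := ringKrullDim_ne_bot
    have htop : ringKrullDim R ≠ ⊤ := by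
      intro h
      rw [h] at hdim
      have h' : ((N + 4 + 4 : ℕ) : WithBot ℕ∞) < ⊤ := WithBot.coe_lt_coe.2 (ENat.natCast_lt_top _)
      exact absurd hdim (not_le_of_gt h')
    obtain ⟨d, hd⟩ := WithBot.ne_bot_iff_exists.1 hbot
    rw [← hd] at htop
    have : d ≠ ⊤ := by
      rintro rfl
      exact htop rfl
    obtain ⟨e, rfl⟩ := ENat.ne_top_iff_exists.1 this
    exact ⟨e, hd.symm⟩
  refine ⟨R, i1, i2, i3, i4, P, d, hP, hd, ?_⟩
  rw [hd] at hdim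
  have h2 : d ≤ N + 4 + 4 := by exact_mod_cast hdim
  refine lt_of_lt_of_le ?_ h1
  have h3 : d + N < 2 * (N + 4) + 1 := by omega
  exact_mod_cast h3

end Pool.Agent.Helper69.Spread
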