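import Mathlib

set_option autoImplicit false

namespace Pool.Agent.Helper69.Spread

theorem card_le_spanFinrank {A k ι : Type} [CommRing A] [IsDomain A] [Field k] [Fintype ι]
    (m : Ideal A) [m.IsPrime] (ε : A →+* k) (hε : ∀ w, w ∉ m → ε w ≠ 0) (M : Ideal A)
    (κ : A → (ι → k)) (hadd : ∀ x y, κ (x + y) = κ x + κ y) (h0 : κ 0 = 0)
    (hmul : ∀ h f, f ∈ M → κ (h * f) = ε h • κ f)
    (Q : Ideal (Localization.AtPrime m)) (hQM : Q ≤ M.map (algebraMap A (Localization.AtPrime m)))
    (hQ : Q.FG) (F : ι → A) (hF : ∀ i, F i ∈ M)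
    (hFQ : ∀ i, algebraMap A (Localization.AtPrime m) (F i) ∈ Q)
    (hκ : ∀ i, ∃ c : k, c ≠ 0 ∧ κ (F i) = c • (fun j => open Classical in if j = i then 1 else 0)) :
    Fintype.card ι ≤ Submodule.spanFinrank Q := by
  classical
  set R := Localization.AtPrime m with hR
  have hinj : Function.Injective (algebraMap A R) :=
    IsLocalization.injective R m.primeCompl_le_nonZeroDivisors
  have hT : ∀ g : R, ∃ p : A × A, g ∈ Q.generators →
      p.1 ∈ M ∧ p.2 ∉ m ∧ g * algebraMap A R p.2 = algebraMap A R p.1 := by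
    intro g
    by_cases hg : g ∈ Q.generators
    · have h1 : g ∈ Q := Submodule.FG.generators_mem Q hg
      obtain ⟨⟨x, s⟩, hxs⟩ := (IsLocalization.mem_map_algebraMap_iff m.primeCompl R).1 (hQM h1)
      exact ⟨⟨x.1, s.1⟩, fun _ => ⟨x.2, s.2, hxs⟩⟩
    · exact ⟨(0, 0), fun h => absurd h hg⟩
  choose p hp using hT
  have hfin : Q.generators.Finite := Submodule.FG.finite_generators hQ
  set T : Finset R := hfin.toFinset with hTdef
  have hTcard : T.card = Submodule.spanFinrank Q := by
    rw [← Submodule.FG.generators_ncard hQ, hTdef, Set.ncard_eq_toFinset_card _ hfin]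
  set W : Submodule k (ι → k) := Submodule.span k ((T.image fun g => κ (p g).1 : Finset (ι → k)) :
    Set (ι → k)) with hW
  have key : ∀ x ∈ Q, ∃ w f : A, w ∉ m ∧ f ∈ M ∧ x * algebraMap A R w = algebraMap A R f ∧
      κ f ∈ W := by
    intro x hx
    rw [← Submodule.span_generators Q] at hx
    induction hx using Submodule.span_induction with
    | mem x hx =>
      obtain ⟨h1, h2, h3⟩ := hp x hx
      refine ⟨(p x).2, (p x).1, h2, h1, h3, ?_⟩
      apply Submodule.subset_span
      rw [Finset.mem_coe, Finset.mem_image]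
      exact ⟨x, (Set.Finite.mem_toFinset hfin).2 hx, rfl⟩
    | zero =>
      refine ⟨1, 0, fun h => ‹m.IsPrime›.ne_top ((Ideal.eq_top_iff_one _).2 h), M.zero_mem, by simp, ?_⟩
      rw [h0]
      exact W.zero_mem
    | add x y _ _ hx hy =>
      obtain ⟨w, f, hw, hf, hwf, hκf⟩ := hx
      obtain ⟨w', f', hw', hf', hwf', hκf'⟩ := hy
      refine ⟨w * w', w' * f + w * f', fun h => ?_, add_mem (M.mul_mem_left _ hf)
        (M.mul_mem_left _ hf'), ?_, ?_⟩
      · rcases ‹m.IsPrime›.mem_or_mem h with h | h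
        · exact hw h
        · exact hw' h
      · simp only [map_mul, map_add]
        linear_combination (algebraMap A R w') * hwf + (algebraMap A R w) * hwf'
      · rw [hadd, hmul _ _ hf, hmul _ _ hf']
        exact W.add_mem (W.smul_mem _ hκf) (W.smul_mem _ hκf')
    | smul c x _ hx =>
      obtain ⟨w, f, hw, hf, hwf, hκf⟩ := hx
      obtain ⟨⟨h, v⟩, hv⟩ := IsLocalization.surj m.primeCompl c
      simp only at hv
      refine ⟨v.1 * w, h * f, fun hh => ?_, M.mul_mem_left _ hf, ?_, ?_⟩
      · rcases ‹m.IsPrime›.mem_or_mem hh with h | h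
        · exact v.2 h
        · exact hw h
      · simp only [map_mul, smul_eq_mul]
        linear_combination (x * algebraMap A R w) * hv + (algebraMap A R h) * hwf
      · rw [hmul _ _ hf]
        exact W.smul_mem _ hκf
  have hsingle : ∀ i : ι, (Pi.single i 1 : ι → k) ∈ W := by
    intro i
    obtain ⟨w, f, hw, hf, hwf, hκf⟩ := key _ (hFQ i)
    rw [← map_mul] at hwf
    have h1 := hinj hwf
    obtain ⟨c, hc, hc'⟩ := hκ i
    rw [← h1, mul_comm, hmul _ _ (hF i), hc', smul_smul] at hκf
    have h2 : ε w * c ≠ 0 := mul_ne_zero (hε w hw) hc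
    have h3 := W.smul_mem (ε w * c)⁻¹ hκf
    rw [smul_smul, inv_mul_cancel₀ h2, one_smul] at h3
    convert h3 using 1
    ext j
    rw [Pi.single_apply]
  have htop : W = ⊤ := by
    rw [eq_top_iff]
    intro v _
    have : v = ∑ i, v i • (Pi.single i 1 : ι → k) := by
      ext j
      simp [Finset.sum_apply, Pi.single_apply]
    rw [this]
    exact W.sum_mem fun i _ => W.smul_mem _ (hsingle i)
  have h1 : Module.finrank k W ≤ T.card := by
    refine (finrank_span_finset_le_card _).trans ?_
    exact Finset.card_image_le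
  rw [htop, finrank_top, Module.finrank_pi] at h1
  rw [← hTcard]
  exact h1

end Pool.Agent.Helper69.Spread
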