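import Pool.Agent.Helper69.SpreadRing

set_option autoImplicit false

namespace Pool.Agent.Helper69.Spread

open MvPolynomial

section
variable {k : Type} [Field k]

attribute [local instance] MvPolynomial.gradedAlgebra

theorem II_homogeneous : (II k).IsHomogeneous (homogeneousSubmodule (Fin 3) k) := by
  apply Ideal.homogeneous_span
  rintro x (rfl | rfl)
  · exact ⟨3, A1_hom⟩
  · exact ⟨3, A2_hom⟩

theorem II_pow_homogeneous (a : ℕ) :
    (II k ^ a).IsHomogeneous (homogeneousSubmodule (Fin 3) k) := by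
  induction a with
  | zero => rw [pow_zero, Ideal.one_eq_top]; exact Ideal.IsHomogeneous.top _
  | succ a ih => rw [pow_succ]; exact ih.mul II_homogeneous

theorem hc_mem_II {a : ℕ} {G : B k} (hG : G ∈ II k ^ a) (d : ℕ) :
    homogeneousComponent d G ∈ II k ^ a :=
  homogeneousComponent_mem_of_mem (II_pow_homogeneous a) hG d

theorem hc_mem_JJ {m : ℕ} {G : B k} (hG : G ∈ JJ k m) (d : ℕ) :
    homogeneousComponent d G ∈ JJ k m := by
  intro μ hμ
  rw [support_homogeneousComponent, Finset.mem_filter] at hμ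
  exact hG μ hμ.1

theorem degree_of_hom {d : ℕ} {G : B k} (hG : G.IsHomogeneous d) {μ : Fin 3 →₀ ℕ}
    (hμ : μ ∈ G.support) : μ.degree = d := by
  rw [Finsupp.degree_eq_weight_one]
  exact hG (mem_support_iff.1 hμ)

/-- Elements of `II ^ a` have no monomials of degree less than `3 a`. -/
theorem degree_ge_of_mem_II {a : ℕ} {G : B k} (hG : G ∈ II k ^ a) :
    ∀ μ ∈ G.support, 3 * a ≤ μ.degree := by
  classical
  induction a generalizing G with
  | zero => intro μ _; omega
  | succ a ih =>
    rw [pow_succ] at hG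
    have hII : ∀ H ∈ II k, ∀ μ ∈ H.support, 3 ≤ μ.degree := by
      intro H hH
      refine Submodule.span_induction (p := fun H _ => ∀ μ ∈ H.support, 3 ≤ μ.degree)
        ?_ ?_ ?_ ?_ hH
      · rintro x (rfl | rfl) μ hμ
        · exact (degree_of_hom A1_hom hμ).ge
        · exact (degree_of_hom A2_hom hμ).ge
      · simp
      · intro x y _ _ hx hy μ hμ
        rcases Finset.mem_union.1 (support_add hμ) with h | h
        · exact hx μ h
        · exact hy μ h
      · intro c x _ hx μ hμ
        obtain ⟨y, hy, z, hz, rfl⟩ := Finset.mem_add.1 (support_mul c x hμ)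
        rw [map_add]
        have := hx z hz
        omega
    refine Submodule.mul_induction_on hG ?_ ?_
    · intro x hx y hy μ hμ
      obtain ⟨u, hu, v, hv, rfl⟩ := Finset.mem_add.1 (support_mul x y hμ)
      rw [map_add]
      have h1 := ih hx u hu
      have h2 := hII y hy v hv
      omega
    · intro x y hx hy μ hμ
      rcases Finset.mem_union.1 (support_add hμ) with h | h
      · exact hx μ h
      · exact hy μ h

/-- The set of bidegrees of forms vanishing to order `n`. -/
def St (k : Type) [Field k] (n b a : ℕ) : Prop :=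
  ∃ G : B k, G ≠ 0 ∧ G.IsHomogeneous (b + 3 * a) ∧ G ∈ II k ^ a ∧ G ∈ JJ k (a + n)

theorem St_of_mem {n a : ℕ} {G : B k} (hI : G ∈ II k ^ a) (hJ : G ∈ JJ k (a + n))
    {μ : Fin 3 →₀ ℕ} (hμ : μ ∈ G.support) : ∃ b, μ.degree = b + 3 * a ∧ St k n b a := by
  have h1 := degree_ge_of_mem_II hI μ hμ
  refine ⟨μ.degree - 3 * a, by omega, homogeneousComponent μ.degree G, ?_, ?_,
    hc_mem_II hI _, hc_mem_JJ hJ _⟩
  · intro h
    have h2 := coeff_homogeneousComponent μ.degree G μ
    rw [h, if_pos rfl, coeff_zero] at h2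
    exact (mem_support_iff.1 hμ) h2.symm
  · have : μ.degree - 3 * a + 3 * a = μ.degree := by omega
    rw [this]
    exact homogeneousComponent_isHomogeneous _ _

/-- The minimal bidegree. -/
theorem exists_min (n : ℕ) (h : ∃ b a, St k n b a) : ∃ b a, St k n b a ∧
    (∀ b' a', St k n b' a' → b ≤ b') ∧ ∀ a', St k n b a' → a ≤ a' := by
  classical
  have hb := Nat.find_spec h
  refine ⟨Nat.find h, Nat.find hb, Nat.find_spec hb, ?_, ?_⟩
  · intro b' a' h'
    exact Nat.find_min' h ⟨a', h'⟩
  · intro a' h'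
    exact Nat.find_min' hb h'

variable {r : ℕ}

/-- The representative of a coefficient. -/
noncomputable def rp (f : R0 k r) (α : Fin (r + 1) →₀ ℕ) : B k :=
  (rep_of_mem f.2 α).choose

theorem rp_mem (f : R0 k r) (α : Fin (r + 1) →₀ ℕ) : rp f α ∈ II k ^ α.degree :=
  (rep_of_mem f.2 α).choose_spec.1

theorem th_rp (f : R0 k r) (α : Fin (r + 1) →₀ ℕ) :
    th k (rp f α) = X 2 ^ α.degree * coeff α (f : E k r) :=
  (rep_of_mem f.2 α).choose_spec.2

theorem rp_eq {f : R0 k r} {α : Fin (r + 1) →₀ ℕ} {G : B k}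
    (h : th k G = X 2 ^ α.degree * coeff α (f : E k r)) : rp f α = G :=
  th_injective ((th_rp f α).trans h.symm)

theorem rp_mul (f g : R0 k r) (α : Fin (r + 1) →₀ ℕ) :
    rp (f * g) α = ∑ p ∈ Finset.HasAntidiagonal.antidiagonal α, rp f p.1 * rp g p.2 := by
  classical
  apply rp_eq
  rw [map_sum]
  have : ((f * g : R0 k r) : E k r) = (f : E k r) * g := rfl
  rw [this, coeff_mul, Finset.mul_sum]
  refine Finset.sum_congr rfl fun p hp => ?_
  rw [Finset.HasAntidiagonal.mem_antidiagonal] at hp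
  rw [map_mul, th_rp, th_rp, ← hp, map_add, pow_add]
  ring

theorem rp_add (f g : R0 k r) (α : Fin (r + 1) →₀ ℕ) : rp (f + g) α = rp f α + rp g α := by
  apply rp_eq
  rw [map_add, th_rp, th_rp]
  have : ((f + g : R0 k r) : E k r) = (f : E k r) + g := rfl
  rw [this, coeff_add, mul_add]

theorem rp_zero (α : Fin (r + 1) →₀ ℕ) : rp (0 : R0 k r) α = 0 := by
  apply rp_eq
  simp

/-- The contraction of the powers of `z`. -/
noncomputable def MM (k : Type) [Field k] (r n : ℕ) : Ideal (R0 k r) :=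
  (Ideal.span {(C (X 2) : E k r) ^ n}).comap (R0 k r).val

theorem mem_MM {n : ℕ} {f : R0 k r} : f ∈ MM k r n ↔ (C (X 2) : E k r) ^ n ∣ (f : E k r) := by
  rw [MM, Ideal.mem_comap, Ideal.mem_span_singleton]
  rfl

theorem rp_mem_JJ {n : ℕ} {f : R0 k r} (hf : f ∈ MM k r n) (α : Fin (r + 1) →₀ ℕ) :
    rp f α ∈ JJ k (α.degree + n) := by
  apply mem_JJ_of_dvd_th
  rw [th_rp, pow_add]
  refine mul_dvd_mul_left _ ?_
  rw [mem_MM, ← C_pow, C_dvd_iff_dvd_coeff] at hf
  exact hf α

/-- The constant term. -/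
noncomputable def eps (k : Type) [Field k] (r : ℕ) : R0 k r →+* k :=
  ((constantCoeff (σ := Fin 3) (R := k)).comp (constantCoeff (σ := Fin (r + 1)) (R := B k))).comp
    (R0 k r).val.toRingHom

theorem eps_eq (f : R0 k r) : eps k r f = coeff 0 (rp f 0) := by
  have h1 : coeff (tw 0) (th k (rp f 0)) = coeff 0 (rp f 0) := coeff_th 0 _
  have h2 : tw 0 = 0 := by
    ext i
    fin_cases i <;> simp [tw]
  rw [h2, th_rp] at h1
  rw [← h1]
  simp [eps, constantCoeff_eq]

theorem kappa_mul {n b a : ℕ} (hmin : ∀ b' a', St k n b' a' → b ≤ b')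
    (hmina : ∀ a', St k n b a' → a ≤ a') {μ₀ : Fin 3 →₀ ℕ} (hμ₀ : μ₀.degree = b + 3 * a)
    (h f : R0 k r) (hf : f ∈ MM k r n) (α : Fin (r + 1) →₀ ℕ) (hα : α.degree = a) :
    coeff μ₀ (rp (h * f) α) = eps k r h * coeff μ₀ (rp f α) := by
  classical
  rw [rp_mul, coeff_sum, Finset.sum_eq_single (0, α)]
  · -- main term
    rw [coeff_mul, Finset.sum_eq_single (0, μ₀)]
    · rw [eps_eq]
    · rintro ⟨μ, ν⟩ hp hne
      rw [Finset.HasAntidiagonal.mem_antidiagonal] at hp
      simp only at hp
      by_contra hcon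
      have hν : ν ∈ (rp f α).support := mem_support_iff.2 (right_ne_zero_of_mul hcon)
      obtain ⟨b', hb', hSt⟩ := St_of_mem (rp_mem f α) (rp_mem_JJ hf α) hν
      have h1 := hmin _ _ hSt
      have h2 : μ.degree + ν.degree = b + 3 * a := by rw [← map_add, hp, hμ₀]
      rw [hα] at hb'
      have h3 : μ.degree = 0 := by omega
      rw [Finsupp.degree_eq_zero_iff] at h3
      subst h3
      rw [zero_add] at hp
      subst hp
      exact hne rfl
    · intro hcon
      exact absurd (Finset.HasAntidiagonal.mem_antidiagonal.2 (zero_add _)) hcon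
  · rintro ⟨β, γ⟩ hp hne
    rw [Finset.HasAntidiagonal.mem_antidiagonal] at hp
    simp only at hp
    rw [coeff_mul]
    refine Finset.sum_eq_zero ?_
    rintro ⟨μ, ν⟩ hq
    rw [Finset.HasAntidiagonal.mem_antidiagonal] at hq
    simp only at hq ⊢
    by_contra hcon
    have hμ : μ ∈ (rp h β).support := mem_support_iff.2 (left_ne_zero_of_mul hcon)
    have hν : ν ∈ (rp f γ).support := mem_support_iff.2 (right_ne_zero_of_mul hcon)
    obtain ⟨b', hb', hSt⟩ := St_of_mem (rp_mem f γ) (rp_mem_JJ hf γ) hν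
    have h0 := degree_ge_of_mem_II (rp_mem h β) μ hμ
    have h1 := hmin _ _ hSt
    have h2 : μ.degree + ν.degree = b + 3 * a := by rw [← map_add, hq, hμ₀]
    have h3 : β.degree + γ.degree = a := by rw [← map_add, hp, hα]
    have h4 : b' = b := by omega
    subst h4
    have h5 := hmina _ hSt
    have h6 : β.degree = 0 := by omega
    rw [Finsupp.degree_eq_zero_iff] at h6
    subst h6
    rw [zero_add] at hp
    subst hp
    exact hne rfl
  · intro hcon
    exact absurd (Finset.HasAntidiagonal.mem_antidiagonal.2 (zero_add _)) hcon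

end

end Pool.Agent.Helper69.Spread
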