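import Pool.Agent.Helper69.SpreadSymb
import Pool.Agent.Helper69.SpreadAbs

set_option autoImplicit false

namespace Pool.Agent.Helper69.Spread

open MvPolynomial SymbolicSpread

theorem dim_subalgebra_le {k E' ι : Type} [Field k] [CommRing E'] [Nontrivial E'] [Algebra k E']
    [Fintype ι] (S : Subalgebra k E') (hS : S.FG) (e : E' ≃ₐ[k] MvPolynomial ι k) :
    ringKrullDim S ≤ Fintype.card ι := by
  have : Algebra.FiniteType k S := (Subalgebra.fg_iff_finiteType _).1 hS
  refine ringKrullDim_le_card (k := k) (ι := ι) ((e : E' →ₐ[k] MvPolynomial ι k).comp S.val) ?_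
  intro x y h
  apply Subtype.ext
  apply e.injective
  exact h

section
variable (k : Type) [Field k] (r : ℕ)

theorem dim_R0_le : ringKrullDim (R0 k r) ≤ ((r + 4 : ℕ) : WithBot ℕ∞) := by
  have h := dim_subalgebra_le (k := k) (ι := Fin (r + 1) ⊕ Fin 3) (R0 k r) (R0_fg k r)
    (MvPolynomial.sumAlgEquiv k (Fin (r + 1)) (Fin 3)).symm
  refine h.trans (le_of_eq ?_)
  rw [Fintype.card_sum, Fintype.card_fin, Fintype.card_fin]

theorem eps_of_mem (f : R0 k r) (hf : f ∈ MM k r 1) : eps k r f = 0 := by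
  obtain ⟨f, hf0⟩ := f
  rw [mem_MM, pow_one] at hf
  obtain ⟨c, hc⟩ := hf
  simp only at hc
  subst hc
  simp [eps]

theorem family : ∃ (R : Type) (_ : CommRing R) (_ : IsDomain R) (_ : IsLocalRing R)
    (_ : IsNoetherianRing R) (P : Ideal R), P.IsPrime ∧
    ringKrullDim R ≤ ((r + 4 : ℕ) : WithBot ℕ∞) ∧
    ∀ n b a : ℕ, St k n b a → (∀ b' a', St k n b' a' → b ≤ b') → (∀ a', St k n b a' → a ≤ a') →
      (a / r + 1) ^ r ≤ Submodule.spanFinrank (symbolicPower P n) := by
  classical
  obtain ⟨R, i1, i2, i3, i4, P, hP, hdim, hmain⟩ := abstract_main (A := R0 k r) (k := k)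
    (eps k r) (MM k r) MM_one_prime (eps_of_mem k r) MM_pow_le
    (fun n D f hD h => mem_MM_of_mul hD h)
  refine ⟨R, i1, i2, i3, i4, P, hP, hdim.trans (dim_R0_le k r), ?_⟩
  intro n b a hSt hmin hmina
  obtain ⟨G, hG0, hGhom, hGI, hGJ⟩ := hSt
  obtain ⟨μ₀, hμ₀⟩ : ∃ μ₀, μ₀ ∈ G.support := by
    by_contra hcon
    push Not at hcon
    exact hG0 (support_eq_empty.1 (Finset.eq_empty_of_forall_notMem hcon))
  have hdeg₀ : μ₀.degree = b + 3 * a := degree_of_hom hGhom hμ₀
  set α : (Fin r → Fin (a / r + 1)) → (Fin (r + 1) →₀ ℕ) := fun v =>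
    Finsupp.equivFunOnFinite.symm
      (Fin.cons (a - ∑ i, (v i : ℕ)) (fun i => (v i : ℕ))) with hα
  have hαinj : Function.Injective α := by
    intro v w hvw
    have := Finsupp.equivFunOnFinite.symm.injective hvw
    have h2 := (Fin.cons_inj.1 this).2
    funext i
    apply Fin.ext
    exact congrFun h2 i
  have hdeg : ∀ v, (α v).degree = a := by
    intro v
    have hsum : ∑ i, (v i : ℕ) ≤ a := by
      calc ∑ i, (v i : ℕ) ≤ ∑ _i : Fin r, a / r := Finset.sum_le_sum fun i _ => by
            have := (v i).2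
            omega
        _ = r * (a / r) := by simp
        _ ≤ a := Nat.mul_div_le a r
    rw [Finsupp.degree_eq_sum, Fin.sum_univ_succ]
    simp only [hα, Finsupp.equivFunOnFinite_symm_apply_apply, Fin.cons_zero, Fin.cons_succ]
    omega
  have hg : ∀ i, ∃ g : B k, (monomial (α i) g : E k r) ∈ R0 k r ∧ th k G = X 2 ^ a * g :=
    fun i => monomial_mem a (α i) (hdeg i) G hGI
  choose g hgmem hgG using hg
  set F : (Fin r → Fin (a / r + 1)) → R0 k r := fun i => ⟨_, hgmem i⟩ with hF
  have hrp : ∀ i j, rp (F i) (α j) = if j = i then G else 0 := by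
    intro i j
    apply rp_eq
    have : ((F i : R0 k r) : E k r) = monomial (α i) (g i) := rfl
    rw [this, coeff_monomial]
    by_cases h : j = i
    · subst h
      rw [if_pos rfl, if_pos rfl, hgG j, hdeg]
    · rw [if_neg h, if_neg (fun h' => h (hαinj h').symm), map_zero, mul_zero]
  have h1 : Fintype.card (Fin r → Fin (a / r + 1)) = (a / r + 1) ^ r := by
    simp
  rw [← h1]
  refine hmain n (Fin r → Fin (a / r + 1)) (fun f i => coeff μ₀ (rp f (α i))) ?_ ?_ ?_ F ?_ ?_
  · intro x y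
    funext i
    simp only [Pi.add_apply]
    rw [rp_add, coeff_add]
  · funext i
    simp only [Pi.zero_apply]
    rw [rp_zero, coeff_zero]
  · intro h f hf
    funext i
    simp only [Pi.smul_apply, smul_eq_mul]
    exact kappa_mul hmin hmina hdeg₀ h f hf (α i) (hdeg i)
  · intro i
    exact exists_mul_mem (hdeg i) hGJ (hgmem i) (hgG i)
  · intro i
    refine ⟨coeff μ₀ G, mem_support_iff.1 hμ₀, ?_⟩
    funext j
    simp only [Pi.smul_apply, smul_eq_mul, mul_ite, mul_one, mul_zero]
    rw [hrp]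
    by_cases h : j = i
    · rw [if_pos h, if_pos h]
    · rw [if_neg h, if_neg h, coeff_zero]

end

end Pool.Agent.Helper69.Spread
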