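import Pool.Agent.Helper69.SpreadExist2

set_option autoImplicit false

namespace Pool.Agent.Helper69.Spread

open MvPolynomial

section
variable (k : Type) [Field k]

/-- The monomial blow-up substitution `x ↦ x`, `Y ↦ y z`, `Z ↦ z`. -/
noncomputable def th : B k →ₐ[k] B k := aeval ![X 0, X 1 * X 2, X 2]

/-- The action of `th` on exponents. -/
noncomputable def tw (μ : Fin 3 →₀ ℕ) : Fin 3 →₀ ℕ :=
  Finsupp.equivFunOnFinite.symm ![μ 0, μ 1, μ 1 + μ 2]

theorem tw_injective : Function.Injective tw := by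
  intro μ ν h
  have h0 := congrArg (fun f => f 0) h
  have h1 := congrArg (fun f => f 1) h
  have h2 := congrArg (fun f => f 2) h
  simp only [tw, Finsupp.equivFunOnFinite_symm_apply_apply, Matrix.cons_val] at h0 h1 h2
  ext i
  fin_cases i
  · exact h0
  · exact h1
  · show μ 2 = ν 2
    omega

variable {k}

theorem th_monomial (μ : Fin 3 →₀ ℕ) (c : k) : th k (monomial μ c) = monomial (tw μ) c := by
  rw [th, aeval_monomial, monomial_eq, Finsupp.prod_fintype _ _ (by simp),
    Finsupp.prod_fintype _ _ (by simp)]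
  rw [Fin.prod_univ_three, Fin.prod_univ_three]
  simp only [tw, Finsupp.equivFunOnFinite_symm_apply_apply, Matrix.cons_val]
  rw [MvPolynomial.algebraMap_eq, mul_pow, pow_add]
  ring

theorem coeff_th (μ : Fin 3 →₀ ℕ) (G : B k) : coeff (tw μ) (th k G) = coeff μ G := by
  classical
  induction G using MvPolynomial.induction_on' with
  | monomial ν c =>
    rw [th_monomial, coeff_monomial, coeff_monomial]
    by_cases h : ν = μ
    · rw [if_pos h, if_pos (by rw [h])]
    · rw [if_neg h, if_neg (fun h' => h (tw_injective h'))]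
  | add p q hp hq => rw [map_add, coeff_add, coeff_add, hp, hq]

theorem th_injective : Function.Injective (th k) := by
  intro G H h
  ext μ
  rw [← coeff_th μ G, ← coeff_th μ H, h]

theorem mem_JJ_of_dvd_th {m : ℕ} {G : B k} (h : (X 2 : B k) ^ m ∣ th k G) : G ∈ JJ k m := by
  classical
  intro μ hμ
  by_contra hlt
  push Not at hlt
  rw [mem_support_iff, ← coeff_th] at hμ
  apply hμ
  obtain ⟨H, hH⟩ := h
  rw [hH, X_pow_eq_monomial, coeff_monomial_mul', if_neg]
  intro hle
  have := hle 2
  simp only [Finsupp.single_eq_same, tw, Finsupp.equivFunOnFinite_symm_apply_apply,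
    Matrix.cons_val] at this
  omega

variable (k)

/-- `q_Y q_Z`. -/
noncomputable def qq : B k :=
  (X 0 ^ 2 + X 0 * X 1 + X 1 ^ 2) * (X 0 ^ 2 + X 0 * X 2 + X 2 ^ 2)

variable {k}

theorem qq_pow_mul_mem {m : ℕ} {G : B k} (hG : G ∈ JJ k m) : qq k ^ m * G ∈ II k ^ m := by
  classical
  have hsum : G = ∑ μ ∈ G.support, monomial μ (coeff μ G) := (support_sum_monomial_coeff G).symm
  rw [hsum, Finset.mul_sum]
  refine Ideal.sum_mem _ fun μ hμ => ?_
  have hm := hG μ hμ
  obtain ⟨i, j, i', j', hi, hj, hij⟩ : ∃ i j i' j', μ 1 = i + i' ∧ μ 2 = j + j' ∧ i + j = m := by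
    rcases le_total m (μ 1) with h | h
    · exact ⟨m, 0, μ 1 - m, μ 2, by omega, by omega, by omega⟩
    · exact ⟨μ 1, m - μ 1, 0, μ 2 - (m - μ 1), by omega, by omega, by omega⟩
  rw [monomial_eq, Finsupp.prod_fintype _ _ (by simp), Fin.prod_univ_three, hi, hj]
  have h1 : A1 k ∈ II k := Ideal.subset_span (by simp)
  have h2 : A2 k ∈ II k := Ideal.subset_span (by simp)
  have h3 := Ideal.mul_mem_mul (Ideal.pow_mem_pow h2 i) (Ideal.pow_mem_pow h1 j)
  rw [← pow_add, hij] at h3
  have h4 : qq k ^ m * (C (coeff μ G) * (X 0 ^ μ 0 * X 1 ^ (i + i') * X 2 ^ (j + j'))) =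
      (C (coeff μ G) * X 0 ^ μ 0 * X 1 ^ i' * X 2 ^ j' *
        (X 0 ^ 2 + X 0 * X 1 + X 1 ^ 2) ^ j * (X 0 ^ 2 + X 0 * X 2 + X 2 ^ 2) ^ i) *
      (A2 k ^ i * A1 k ^ j) := by
    rw [← hij, qq, A1, A2, mul_pow, mul_pow, mul_pow, pow_add, pow_add, pow_add, pow_add]
    ring
  rw [h4]
  exact Ideal.mul_mem_left _ _ h3

variable (k)

/-- `U1`. -/
noncomputable def U1 : B k := X 0 ^ 2 + X 0 * X 2 + X 2 ^ 2

/-- `U2`. -/
noncomputable def U2 : B k := X 1 * (X 0 ^ 2 + X 0 * (X 1 * X 2) + (X 1 * X 2) ^ 2)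

variable {k}

theorem th_A1 : th k (A1 k) = X 2 * U1 k := by
  simp only [th, A1, U1, map_mul, map_add, map_pow, aeval_X, Matrix.cons_val]

theorem th_A2 : th k (A2 k) = X 2 * U2 k := by
  simp only [th, A2, U2, map_mul, map_add, map_pow, aeval_X, Matrix.cons_val]
  ring

variable (k) (r : ℕ)

/-- The ambient polynomial ring. -/
abbrev E : Type := MvPolynomial (Fin (r + 1)) (B k)

/-- The generators. -/
noncomputable def gens : Set (E k r) :=
  {C (X 0), C (X 2), C (X 1 * X 2)} ∪ (Set.range fun j => C (U1 k) * X j) ∪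
    Set.range fun j => C (U2 k) * X j

/-- The ring. -/
noncomputable def R0 : Subalgebra k (E k r) := Algebra.adjoin k (gens k r)

theorem gens_finite : (gens k r).Finite :=
  ((Set.toFinite _).union (Set.finite_range _)).union (Set.finite_range _)

theorem R0_fg : (R0 k r).FG := by
  refine ⟨(gens_finite k r).toFinset, ?_⟩
  rw [Set.Finite.coe_toFinset]
  rfl

instance : Algebra.FiniteType k (R0 k r) := (Subalgebra.fg_iff_finiteType _).1 (R0_fg k r)

instance : IsNoetherianRing (R0 k r) := Algebra.FiniteType.isNoetherianRing k (R0 k r)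

variable {k r}

theorem C_th_mem (c : B k) : (C (th k c) : E k r) ∈ R0 k r := by
  induction c using MvPolynomial.induction_on with
  | C a =>
    have : (C (th k (C a)) : E k r) = algebraMap k (E k r) a := by
      rw [th, aeval_C]
      rfl
    rw [this]
    exact Subalgebra.algebraMap_mem _ _
  | add p q hp hq => rw [map_add, map_add]; exact add_mem hp hq
  | mul_X p i hp =>
    rw [map_mul, map_mul]
    refine mul_mem hp ?_
    have : th k (X i) = ![X 0, X 1 * X 2, X 2] i := by rw [th, aeval_X]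
    rw [this]
    apply Algebra.subset_adjoin
    left; left
    fin_cases i
    · left; rfl
    · right; right; rfl
    · right; left; rfl

/-- Elements with representatives. -/
def Rep (f : E k r) : Prop :=
  ∀ α : Fin (r + 1) →₀ ℕ, ∃ G ∈ II k ^ α.degree, th k G = X 2 ^ α.degree * coeff α f

theorem rep_of_mem {f : E k r} (hf : f ∈ R0 k r) : Rep f := by
  classical
  induction hf using Algebra.adjoin_induction with
  | mem x hx =>
    intro α
    rcases hx with (hx | ⟨j, rfl⟩) | ⟨j, rfl⟩
    · have key : ∀ c : B k, Rep (C (th k c) : E k r) := by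
        intro c α
        by_cases h : α = 0
        · subst h
          exact ⟨c, by simp, by simp⟩
        · exact ⟨0, Ideal.zero_mem _, by rw [coeff_C, if_neg (Ne.symm h)]; simp⟩
      rcases hx with rfl | rfl | rfl
      · have : th k (X 0) = (X 0 : B k) := by rw [th, aeval_X]; rfl
        have h := key (X 0) α
        rwa [this] at h
      · have : th k (X 2) = (X 2 : B k) := by rw [th, aeval_X]; rfl
        have h := key (X 2) α
        rwa [this] at h
      · have : th k (X 1) = (X 1 * X 2 : B k) := by rw [th, aeval_X]; rfl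
        have h := key (X 1) α
        rwa [this] at h
    · by_cases h : α = Finsupp.single j 1
      · subst h
        refine ⟨A1 k, ?_, ?_⟩
        · rw [Finsupp.degree_single, pow_one]
          exact Ideal.subset_span (by simp)
        · rw [Finsupp.degree_single, pow_one, th_A1, coeff_C_mul, coeff_X, if_pos rfl, mul_one]
      · refine ⟨0, Ideal.zero_mem _, ?_⟩
        rw [coeff_C_mul, coeff_X, if_neg (Ne.symm h)]; simp
    · by_cases h : α = Finsupp.single j 1
      · subst h
        refine ⟨A2 k, ?_, ?_⟩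
        · rw [Finsupp.degree_single, pow_one]
          exact Ideal.subset_span (by simp)
        · rw [Finsupp.degree_single, pow_one, th_A2, coeff_C_mul, coeff_X, if_pos rfl, mul_one]
      · refine ⟨0, Ideal.zero_mem _, ?_⟩
        rw [coeff_C_mul, coeff_X, if_neg (Ne.symm h)]; simp
  | algebraMap c =>
    intro α
    by_cases h : α = 0
    · subst h
      refine ⟨C c, by simp, ?_⟩
      rw [th, aeval_C]
      simp [MvPolynomial.algebraMap_eq, MvPolynomial.algebraMap_apply]
    · refine ⟨0, Ideal.zero_mem _, ?_⟩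
      have : (algebraMap k (E k r)) c = C (C c) := rfl
      rw [this, coeff_C, if_neg (Ne.symm h)]; simp
  | add x y _ _ hx hy =>
    intro α
    obtain ⟨G, hG, hG'⟩ := hx α
    obtain ⟨H, hH, hH'⟩ := hy α
    exact ⟨G + H, add_mem hG hH, by rw [map_add, hG', hH', coeff_add, mul_add]⟩
  | mul x y _ _ hx hy =>
    intro α
    choose G hG hG' using hx
    choose H hH hH' using hy
    refine ⟨∑ p ∈ Finset.HasAntidiagonal.antidiagonal α, G p.1 * H p.2, ?_, ?_⟩
    · refine Ideal.sum_mem _ fun p hp => ?_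
      rw [Finset.HasAntidiagonal.mem_antidiagonal] at hp
      rw [← hp, map_add, pow_add]
      exact Ideal.mul_mem_mul (hG _) (hH _)
    · rw [map_sum, coeff_mul, Finset.mul_sum]
      refine Finset.sum_congr rfl fun p hp => ?_
      rw [Finset.HasAntidiagonal.mem_antidiagonal] at hp
      rw [map_mul, hG', hH', ← hp, map_add, pow_add]
      ring

theorem monomial_mem (a : ℕ) : ∀ (α : Fin (r + 1) →₀ ℕ), α.degree = a → ∀ G ∈ II k ^ a,
    ∃ g : B k, (monomial α g : E k r) ∈ R0 k r ∧ th k G = X 2 ^ a * g := by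
  classical
  -- the ideal of good elements
  have hadd : ∀ (α : Fin (r + 1) →₀ ℕ) (a : ℕ) (G H : B k),
      (∃ g : B k, (monomial α g : E k r) ∈ R0 k r ∧ th k G = X 2 ^ a * g) →
      (∃ g : B k, (monomial α g : E k r) ∈ R0 k r ∧ th k H = X 2 ^ a * g) →
      ∃ g : B k, (monomial α g : E k r) ∈ R0 k r ∧ th k (G + H) = X 2 ^ a * g := by
    rintro α a G H ⟨g, hg, hg'⟩ ⟨h, hh, hh'⟩
    exact ⟨g + h, by rw [map_add]; exact add_mem hg hh, by rw [map_add, hg', hh', mul_add]⟩
  have hmul : ∀ (α β : Fin (r + 1) →₀ ℕ) (a b : ℕ) (G H : B k),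
      (∃ g : B k, (monomial α g : E k r) ∈ R0 k r ∧ th k G = X 2 ^ a * g) →
      (∃ g : B k, (monomial β g : E k r) ∈ R0 k r ∧ th k H = X 2 ^ b * g) →
      ∃ g : B k, (monomial (α + β) g : E k r) ∈ R0 k r ∧ th k (G * H) = X 2 ^ (a + b) * g := by
    rintro α β a b G H ⟨g, hg, hg'⟩ ⟨h, hh, hh'⟩
    refine ⟨g * h, by rw [← monomial_mul]; exact mul_mem hg hh, ?_⟩
    rw [map_mul, hg', hh', pow_add]; ring
  have hone : ∀ c : B k, ∃ g : B k, (monomial 0 g : E k r) ∈ R0 k r ∧ th k c = X 2 ^ 0 * g :=
    fun c => ⟨th k c, C_th_mem c, by simp⟩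
  have hsingle : ∀ j, ∀ G ∈ II k, ∃ g : B k,
      (monomial (Finsupp.single j 1) g : E k r) ∈ R0 k r ∧ th k G = X 2 ^ 1 * g := by
    intro j G hG
    refine Submodule.span_induction (p := fun G _ => ∃ g : B k,
      (monomial (Finsupp.single j 1) g : E k r) ∈ R0 k r ∧ th k G = X 2 ^ 1 * g) ?_ ?_ ?_ ?_ hG
    · rintro x (rfl | rfl)
      · refine ⟨U1 k, ?_, by rw [pow_one]; exact th_A1⟩
        apply Algebra.subset_adjoin
        left; right
        refine ⟨j, ?_⟩
        simp only [X, C_mul_monomial, mul_one]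
      · refine ⟨U2 k, ?_, by rw [pow_one]; exact th_A2⟩
        apply Algebra.subset_adjoin
        right
        refine ⟨j, ?_⟩
        simp only [X, C_mul_monomial, mul_one]
    · exact ⟨0, by simp, by simp⟩
    · intro x y _ _ hx hy
      exact hadd _ _ _ _ hx hy
    · intro c x _ hx
      have := hmul _ _ _ _ _ _ (hone c) hx
      rwa [zero_add, zero_add] at this
  induction a with
  | zero =>
    intro α hα G _
    rw [Finsupp.degree_eq_zero_iff] at hα
    subst hα
    exact hone G
  | succ a ih =>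
    intro α hα G hG
    obtain ⟨j, hj⟩ : ∃ j, α j ≠ 0 := by
      by_contra hcon
      push Not at hcon
      have : α = 0 := Finsupp.ext hcon
      rw [this] at hα
      simp at hα
    obtain ⟨β, rfl⟩ : ∃ β, α = β + Finsupp.single j 1 := by
      refine ⟨α - Finsupp.single j 1, (tsub_add_cancel_of_le ?_).symm⟩
      rw [Finsupp.single_le_iff]
      omega
    have hβ : β.degree = a := by
      rw [map_add, Finsupp.degree_single] at hα
      omega
    rw [pow_succ] at hG
    refine Submodule.mul_induction_on hG ?_ ?_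
    · intro x hx y hy
      exact hmul _ _ _ _ _ _ (ih β hβ x hx) (hsingle j y hy)
    · intro x y hx hy
      exact hadd _ _ _ _ hx hy

end

end Pool.Agent.Helper69.Spread
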