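import Pool.Agent.Helper69.SpreadGrade

set_option autoImplicit false

namespace Pool.Agent.Helper69.Spread

open MvPolynomial

section
variable {k : Type} [Field k] {r : ℕ}

theorem prime_z : Prime (C (X 2) : E k r) :=
  (MvPolynomial.prime_C_iff (Fin (r + 1)) (R := B k)).2 (MvPolynomial.X_prime (R := k) (i := 2))

theorem C_X0_mem : (C (X 0) : E k r) ∈ R0 k r := by
  apply Algebra.subset_adjoin
  left; left; left; rfl

theorem C_X2_mem : (C (X 2) : E k r) ∈ R0 k r := by
  apply Algebra.subset_adjoin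
  left; left; right; left; rfl

theorem C_U1_mem : (C (U1 k) : E k r) ∈ R0 k r := by
  rw [U1, map_add, map_add, map_pow, map_pow, map_mul]
  exact add_mem (add_mem (pow_mem C_X0_mem 2) (mul_mem C_X0_mem C_X2_mem)) (pow_mem C_X2_mem 2)

theorem C_U1_X_mem (j : Fin (r + 1)) : (C (U1 k) * X j : E k r) ∈ R0 k r := by
  apply Algebra.subset_adjoin
  left; right
  exact ⟨j, rfl⟩

/-- The evaluation at `x = 1, y = 0, z = 0, s = 1`. -/
noncomputable def pt (k : Type) [Field k] (r : ℕ) : E k r →+* k :=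
  eval₂Hom (eval ![1, 0, 0]) (fun _ => 1)

theorem pt_z : pt k r (C (X 2)) = 0 := by
  simp [pt]

theorem pt_D (a n : ℕ) : pt k r (C (th k (qq k ^ a)) * (C (U1 k) * X 0) ^ n) = 1 := by
  simp [pt, th, qq, U1]

theorem MM_pow_le (n : ℕ) : MM k r 1 ^ n ≤ MM k r n := by
  induction n with
  | zero => 
    intro f _
    rw [mem_MM, pow_zero]
    exact one_dvd _
  | succ n ih =>
    rw [pow_succ, Ideal.mul_le]
    intro f hf g hg
    have h1 := mem_MM.1 (ih hf)
    have h2 := mem_MM.1 hg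
    rw [mem_MM, pow_succ]
    rw [pow_one] at h2
    exact mul_dvd_mul h1 h2

instance MM_one_prime : (MM k r 1).IsPrime := by
  rw [MM, pow_one]
  have : (Ideal.span {(C (X 2) : E k r)}).IsPrime :=
    (Ideal.span_singleton_prime prime_z.ne_zero).2 prime_z
  exact Ideal.IsPrime.comap _

theorem mem_MM_of_mul {n : ℕ} {D f : R0 k r} (hD : D ∉ MM k r 1) (h : D * f ∈ MM k r n) :
    f ∈ MM k r n := by
  rw [mem_MM] at h hD ⊢
  rw [pow_one] at hD
  exact prime_z.pow_dvd_of_dvd_mul_left n hD h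

theorem exists_mul_mem {n a : ℕ} {α : Fin (r + 1) →₀ ℕ} (hα : α.degree = a) {G : B k}
    (hJ : G ∈ JJ k (a + n)) {g : B k} (hg : (monomial α g : E k r) ∈ R0 k r)
    (hG : th k G = X 2 ^ a * g) :
    ∃ D : R0 k r, D ∉ MM k r 1 ∧ D * ⟨monomial α g, hg⟩ ∈ MM k r 1 ^ n := by
  classical
  have hDmem : (C (th k (qq k ^ (a + n))) * (C (U1 k) * X 0) ^ n : E k r) ∈ R0 k r :=
    mul_mem (C_th_mem _) (pow_mem (C_U1_X_mem 0) n)
  refine ⟨⟨_, hDmem⟩, ?_, ?_⟩
  · rw [mem_MM, pow_one]
    rintro ⟨c, hc⟩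
    have := congrArg (pt k r) hc
    simp only at this
    rw [pt_D, map_mul, pt_z, zero_mul] at this
    exact one_ne_zero this
  · have h1 := qq_pow_mul_mem hJ
    obtain ⟨g', hg', hg''⟩ := monomial_mem (r := r) (a + n) (α + Finsupp.single 0 n)
      (by rw [map_add, Finsupp.degree_single, hα]) _ h1
    have h2 : th k (qq k ^ (a + n)) * g = X 2 ^ n * g' := by
      rw [map_mul, hG] at hg''
      have h3 : (X 2 : B k) ^ a ≠ 0 := pow_ne_zero _ (X_ne_zero 2)
      apply mul_left_cancel₀ h3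
      linear_combination hg''
    have h4 : (⟨_, hDmem⟩ : R0 k r) * ⟨monomial α g, hg⟩ =
        ⟨C (X 2), C_X2_mem⟩ ^ n * (⟨C (U1 k), C_U1_mem⟩ ^ n * ⟨_, hg'⟩) := by
      apply Subtype.ext
      show (C (th k (qq k ^ (a + n))) * (C (U1 k) * X 0) ^ n : E k r) * monomial α g =
        C (X 2) ^ n * (C (U1 k) ^ n * monomial (α + Finsupp.single 0 n) g')
      have h5 : (monomial (α + Finsupp.single 0 n) g' : E k r) = X 0 ^ n * monomial α g' := by
        rw [X_pow_eq_monomial, monomial_mul, one_mul, add_comm α]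
      have h6 : (monomial α g : E k r) = C g * monomial α 1 := by
        rw [C_mul_monomial, mul_one]
      have h7 : (monomial α g' : E k r) = C g' * monomial α 1 := by
        rw [C_mul_monomial, mul_one]
      have h8 := congrArg (C (σ := Fin (r + 1))) h2
      rw [map_mul, map_mul, map_pow (C (σ := Fin (r + 1))) (X 2)] at h8
      rw [h5, h6, h7, mul_pow]
      linear_combination (C (U1 k) ^ n * X 0 ^ n * monomial α 1 : E k r) * h8
    rw [h4]
    refine Ideal.mul_mem_right _ _ (Ideal.pow_mem_pow ?_ n)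
    rw [mem_MM, pow_one]

end

end Pool.Agent.Helper69.Spread
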