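import Mathlib

set_option autoImplicit false
set_option linter.unusedSectionVars false

open RingTheory.Sequence Function CategoryTheory

namespace Pool.Agent.Helper69.Stillman


variable {R : Type} [CommRing R]

/-- `Res rs p M`: `M` has a left resolution of length at most `p` by modules
on which `rs` is weakly regular. -/
inductive Res : (rs : List R) → ℕ → (M : Type) → [AddCommGroup M] → [Module R M] → Prop
  | zero (rs : List R) (M : Type) [AddCommGroup M] [Module R M]
      (h : IsWeaklyRegular M rs) : Res rs 0 M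
  | succ (rs : List R) (p : ℕ) (M K F : Type) [AddCommGroup M] [Module R M]
      [AddCommGroup K] [Module R K] [AddCommGroup F] [Module R F]
      (f : K →ₗ[R] F) (g : F →ₗ[R] M) (hf : Injective f) (hfg : Exact f g)
      (hg : Surjective g) (hF : IsWeaklyRegular F rs) (hK : Res rs p K) : Res rs (p + 1) M

theorem Res.quot {r : R} {rs : List R} {p : ℕ} {M : Type} [AddCommGroup M] [Module R M]
    (h : Res (r :: rs) p M) (hr : IsSMulRegular M r) : Res rs p (QuotSMulTop r M) := by
  induction p generalizing M with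
  | zero =>
    cases h with
    | zero _ h => exact Res.zero _ _ ((isWeaklyRegular_cons_iff M r rs).1 h).2
  | succ p ih =>
    cases h with
    | succ _ _ K F f g hf hfg hg hF hK =>
      have hF' := (isWeaklyRegular_cons_iff F r rs).1 hF
      have hKr : IsSMulRegular K r := hF'.1.of_injective f hf
      have hK' := ih hK hKr
      refine Res.succ rs p _ (QuotSMulTop r K) (QuotSMulTop r F) (QuotSMulTop.map r f)
        (QuotSMulTop.map r g) ?_ (QuotSMulTop.map_exact r hfg hg)
        (QuotSMulTop.map_surjective r hg) hF'.2 hK'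
      -- injectivity
      rw [← LinearMap.ker_eq_bot, LinearMap.ker_eq_bot']
      intro x hx
      obtain ⟨k, rfl⟩ := Submodule.Quotient.mk_surjective _ x
      rw [QuotSMulTop.map_apply_mk, Submodule.Quotient.mk_eq_zero,
        Submodule.mem_smul_pointwise_iff_exists] at hx
      obtain ⟨y, -, hy⟩ := hx
      have h1 : r • g y = 0 := by
        rw [← map_smul, hy]
        exact hfg.apply_apply_eq_zero k
      have h2 : g y = 0 := hr.right_eq_zero_of_smul h1
      obtain ⟨k', hk'⟩ := (hfg y).1 h2
      rw [Submodule.Quotient.mk_eq_zero, Submodule.mem_smul_pointwise_iff_exists]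
      refine ⟨k', trivial, hf ?_⟩
      rw [map_smul, hk', hy]

theorem Res.socle {rs : List R} {p : ℕ} {M : Type} [AddCommGroup M] [Module R M]
    (h : Res rs p M) (hp : p < rs.length) (m : M) (hm : ∀ r ∈ rs, r • m = 0) : m = 0 := by
  induction rs generalizing p M with
  | nil => simp at hp
  | cons r rs ih =>
    cases h with
    | zero _ h =>
      exact ((isWeaklyRegular_cons_iff M r rs).1 h).1.right_eq_zero_of_smul (hm r (by simp))
    | succ p _ K F f g hf hfg hg hF hK =>
      obtain ⟨e, rfl⟩ := hg m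
      have hF' := (isWeaklyRegular_cons_iff F r rs).1 hF
      have hKr : IsSMulRegular K r := hF'.1.of_injective f hf
      have hlift : ∀ s ∈ r :: rs, ∃ k : K, f k = s • e := fun s hs =>
        (hfg _).1 (by rw [map_smul]; exact hm s hs)
      obtain ⟨k, hk⟩ := hlift r (by simp)
      have key : (Submodule.Quotient.mk k : QuotSMulTop r K) = 0 := by
        refine ih (hK.quot hKr) (by simpa using hp) _ ?_
        intro s hs
        obtain ⟨k', hk'⟩ := hlift s (by simp [hs])
        rw [← Submodule.Quotient.mk_smul, Submodule.Quotient.mk_eq_zero,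
          Submodule.mem_smul_pointwise_iff_exists]
        refine ⟨k', trivial, hf ?_⟩
        rw [map_smul, map_smul, hk', hk, smul_comm]
      rw [Submodule.Quotient.mk_eq_zero, Submodule.mem_smul_pointwise_iff_exists] at key
      obtain ⟨k', -, hk'⟩ := key
      have : e = f k' := by
        apply hF'.1
        show r • e = r • f k'
        rw [← hk, ← hk', map_smul]
      rw [this]
      exact hfg.apply_apply_eq_zero k'

theorem res_of_projDim {rs : List R} (hrs : IsWeaklyRegular R rs) (p : ℕ) (M : Type)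
    [AddCommGroup M] [Module R M] (h : HasProjectiveDimensionLE (ModuleCat.of R M) p) :
    Res rs p M := by
  have hproj : ∀ (F : Type) [AddCommGroup F] [Module R F] [Module.Projective R F],
      IsWeaklyRegular F rs := by
    intro F _ _ _
    have h1 : IsWeaklyRegular (TensorProduct R F R) rs := hrs.isWeaklyRegular_lTensor
    exact ((TensorProduct.rid R F).isWeaklyRegular_congr rs).1 h1
  induction p generalizing M with
  | zero =>
    have h1 : Projective (ModuleCat.of R M) := by
      rw [projective_iff_hasProjectiveDimensionLE_zero]; exact h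
    rw [← IsProjective.iff_projective] at h1
    exact Res.zero _ _ (hproj M)
  | succ p ih =>
    let g : (M →₀ R) →ₗ[R] M := Finsupp.linearCombination R (id : M → M)
    have hg : Surjective g := Finsupp.linearCombination_id_surjective R M
    let S : ShortComplex (ModuleCat R) := g.shortComplexKer
    have hS : S.ShortExact := LinearMap.shortExact_shortComplexKer hg
    have hP : Projective S.X₂ := by
      show Projective (ModuleCat.of R (M →₀ R))
      rw [← IsProjective.iff_projective]
      infer_instance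
    have h3 : HasProjectiveDimensionLT S.X₃ (p + 2) := h
    rw [hS.hasProjectiveDimensionLT_X₃_iff p hP] at h3
    refine Res.succ rs p M (LinearMap.ker g) (M →₀ R) (LinearMap.ker g).subtype g
      (Submodule.subtype_injective _) (LinearMap.exact_subtype_ker_map g) hg (hproj _)
      (ih _ h3)

theorem projDim_of_resolution {M : ModuleCat.{0} R} (P : ProjectiveResolution M) (L : ℕ)
    (hP : ∀ i : ℕ, L < i → Limits.IsZero (P.complex.X i)) :
    HasProjectiveDimensionLE M L := by
  have : HasExt.{0} (ModuleCat.{0} R) := inferInstance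
  rw [HasProjectiveDimensionLE, hasProjectiveDimensionLT_iff.{0}]
  intro i hi Y e
  obtain ⟨f, hf, rfl⟩ := P.extMk_surjective e (i + 1) rfl
  have hf0 : f = 0 := (hP i (by omega)).eq_of_src _ _
  subst hf0
  simp

theorem resolution_length {rs : List R} (hrs : IsWeaklyRegular R rs)
    (M : Type) [AddCommGroup M] [Module R M] (m : M) (hm0 : m ≠ 0) (hm : ∀ r ∈ rs, r • m = 0)
    (P : ProjectiveResolution (ModuleCat.of R M)) (L : ℕ)
    (hP : ∀ i : ℕ, L < i → Limits.IsZero (P.complex.X i)) : rs.length ≤ L := by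
  by_contra hlt
  push Not at hlt
  exact hm0 ((res_of_projDim hrs L M (projDim_of_resolution P L hP)).socle hlt m hm)


open MvPolynomial


theorem X_mul_mem_span_X {σ K : Type} [Field K] (s : Set σ) (i : σ) (hi : i ∉ s)
    (f : MvPolynomial σ K) (h : X i * f ∈ Ideal.span (X '' s : Set (MvPolynomial σ K))) :
    f ∈ Ideal.span (X '' s : Set (MvPolynomial σ K)) := by
  classical
  rw [mem_ideal_span_X_image] at h ⊢
  intro m hm
  obtain ⟨j, hj, hj'⟩ := h (Finsupp.single i 1 + m) (by
    rw [mem_support_iff, coeff_X_mul]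
    exact mem_support_iff.1 hm)
  refine ⟨j, hj, ?_⟩
  have hij : i ≠ j := fun e => hi (e ▸ hj)
  simpa [Finsupp.single_apply, hij] using hj'

theorem vars_regular (K : Type) [Field K] (N : ℕ) :
    IsWeaklyRegular (MvPolynomial (Fin N) K)
      (List.ofFn (X : Fin N → MvPolynomial (Fin N) K)) := by
  rw [isWeaklyRegular_iff_Fin]
  intro i
  have hi : (i : ℕ) < N := by simpa using i.2
  have hspan : (Ideal.ofList ((List.ofFn (X : Fin N → MvPolynomial (Fin N) K)).take i) •
      (⊤ : Submodule (MvPolynomial (Fin N) K) (MvPolynomial (Fin N) K))) =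
      Ideal.span (X '' {j : Fin N | j < ⟨i, hi⟩} : Set (MvPolynomial (Fin N) K)) := by
    rw [smul_eq_mul, Ideal.mul_top, Ideal.ofList]
    congr 1
    ext p
    simp only [Set.mem_ofPred_eq, Set.mem_image, List.mem_iff_getElem, List.getElem_take,
      List.getElem_ofFn, List.length_take, List.length_ofFn]
    constructor
    · rintro ⟨j, hj, rfl⟩
      exact ⟨⟨j, by omega⟩, by simp [Fin.lt_def]; omega, rfl⟩
    · rintro ⟨j, hj, rfl⟩
      refine ⟨j, ?_, rfl⟩
      have : (j : ℕ) < i := hj
      omega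
  rw [isSMulRegular_quotient_iff_mem_of_smul_mem, hspan]
  intro f hf
  have hget : (List.ofFn (X : Fin N → MvPolynomial (Fin N) K))[i] = X ⟨i, hi⟩ := by
    simp
  rw [hget, smul_eq_mul] at hf
  exact X_mul_mem_span_X _ _ (by simp) f hf



section Ring
variable {R α : Type} [CommRing R] [Fintype α] [DecidableEq α] (I : Ideal R)

/-- Peeling off one layer: if `x j ^ 3 ∈ I` for all `j` and `∑ x j * h j ∈ I`, then
`(∏ x j ^ 2) * h i ∈ I`. -/
theorem peel (x h : α → R) (hx : ∀ j, x j ^ 3 ∈ I) (hs : ∑ j, x j * h j ∈ I) (i : α) :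
    (∏ j, x j ^ 2) * h i ∈ I := by
  set Q : R := ∏ j ∈ Finset.univ.erase i, x j ^ 2 with hQ
  have hP : ∏ j, x j ^ 2 = x i ^ 2 * Q := (Finset.mul_prod_erase _ _ (Finset.mem_univ i)).symm
  have hoff : ∀ j ∈ Finset.univ.erase i, x i * Q * (x j * h j) ∈ I := by
    intro j hj
    have hQ' : Q = x j ^ 2 * ∏ k ∈ (Finset.univ.erase i).erase j, x k ^ 2 :=
      (Finset.mul_prod_erase _ _ hj).symm
    have : x i * Q * (x j * h j) =
        (x i * (∏ k ∈ (Finset.univ.erase i).erase j, x k ^ 2) * h j) * x j ^ 3 := by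
      rw [hQ']; ring
    rw [this]
    exact I.mul_mem_left _ (hx j)
  have h1 : x i * Q * ∑ j, x j * h j ∈ I := I.mul_mem_left _ hs
  rw [← Finset.add_sum_erase _ _ (Finset.mem_univ i), mul_add, Finset.mul_sum] at h1
  have h2 := I.sub_mem h1 (I.sum_mem hoff)
  rw [add_sub_cancel_right] at h2
  have h3 : (∏ j, x j ^ 2) * h i = x i * Q * (x i * h i) := by rw [hP]; ring
  rw [h3]
  exact h2

/-- Peeling off the second layer. -/
theorem peel2 {β : Type} [Fintype β] [DecidableEq β] (P : R) (z h : β → R)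
    (hz : ∀ q, P * z q ^ 2 ∈ I) (hs : P * ∑ q, z q * h q ∈ I) (q : β) :
    P * (∏ q, z q) * h q ∈ I := by
  set Q : R := ∏ j ∈ Finset.univ.erase q, z j with hQ
  have hP : ∏ j, z j = z q * Q := (Finset.mul_prod_erase _ _ (Finset.mem_univ q)).symm
  have hoff : ∀ j ∈ Finset.univ.erase q, P * Q * (z j * h j) ∈ I := by
    intro j hj
    have hQ' : Q = z j * ∏ k ∈ (Finset.univ.erase q).erase j, z k :=
      (Finset.mul_prod_erase _ _ hj).symm
    have : P * Q * (z j * h j) =
        ((∏ k ∈ (Finset.univ.erase q).erase j, z k) * h j) * (P * z j ^ 2) := by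
      rw [hQ']; ring
    rw [this]
    exact I.mul_mem_left _ (hz j)
  have h1 : Q * (P * ∑ j, z j * h j) ∈ I := I.mul_mem_left _ hs
  rw [← Finset.add_sum_erase _ _ (Finset.mem_univ q), ← mul_assoc, mul_add, Finset.mul_sum,
    mul_comm Q P] at h1
  have h2 := I.sub_mem h1 (I.sum_mem hoff)
  rw [add_sub_cancel_right] at h2
  have h3 : P * (∏ j, z j) * h q = P * Q * (z q * h q) := by rw [hP]; ring
  rw [h3]
  exact h2

end Ring

/-- The variables: `x i`, `z q` and `w (p, q)`. -/
abbrev Vars (α : Type) : Type := α ⊕ (α × α) ⊕ ((α × α) × (α × α))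

section
variable (K α : Type) [Field K] [Fintype α] [DecidableEq α]

/-- The generators: `x i ^ 3`, `∑ i, x i * z (u, i) ^ 2` and
`∑ i, x i * ∑ q, z q * w ((v, i), q)`. -/
noncomputable def gen : α ⊕ α ⊕ α → MvPolynomial (Vars α) K
  | Sum.inl i => X (Sum.inl i) ^ 3
  | Sum.inr (Sum.inl u) => ∑ i, X (Sum.inl i) * X (Sum.inr (Sum.inl (u, i))) ^ 2
  | Sum.inr (Sum.inr v) => ∑ i, X (Sum.inl i) *
      ∑ q, X (Sum.inr (Sum.inl q)) * X (Sum.inr (Sum.inr ((v, i), q)))

/-- The socle element. -/
noncomputable def soc : MvPolynomial (Vars α) K :=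
  (∏ i : α, X (Sum.inl i) ^ 2) * ∏ q : α × α, X (Sum.inr (Sum.inl q))

theorem gen_homogeneous (g : α ⊕ α ⊕ α) : (gen K α g).IsHomogeneous 3 := by
  rcases g with i | u | v
  · exact isHomogeneous_X_pow _ _
  · refine IsHomogeneous.sum _ _ _ fun i _ => ?_
    exact (isHomogeneous_X _ _).mul (isHomogeneous_X_pow _ 2)
  · refine IsHomogeneous.sum _ _ _ fun i _ => ?_
    refine (isHomogeneous_X _ _).mul (n := 2) ?_
    refine IsHomogeneous.sum _ _ _ fun q _ => ?_
    exact (isHomogeneous_X _ _).mul (isHomogeneous_X _ _)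

theorem soc_mul_X (s : Vars α) :
    soc K α * X s ∈ Ideal.span (Set.range (gen K α)) := by
  set I := Ideal.span (Set.range (gen K α)) with hI
  have hg : ∀ g, gen K α g ∈ I := fun g => Ideal.subset_span ⟨g, rfl⟩
  have hx : ∀ i : α, (X (Sum.inl i) : MvPolynomial (Vars α) K) ^ 3 ∈ I := fun i => hg (Sum.inl i)
  have hz : ∀ q : α × α, (∏ i : α, X (Sum.inl i) ^ 2) *
      (X (Sum.inr (Sum.inl q)) : MvPolynomial (Vars α) K) ^ 2 ∈ I := by
    rintro ⟨u, i⟩
    exact peel I (fun i => X (Sum.inl i)) (fun i => X (Sum.inr (Sum.inl (u, i))) ^ 2) hx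
      (hg (Sum.inr (Sum.inl u))) i
  rcases s with i | q | ⟨⟨v, i⟩, q⟩
  · have : soc K α * X (Sum.inl i) =
        ((∏ j ∈ Finset.univ.erase i, X (Sum.inl j) ^ 2) *
          ∏ q : α × α, X (Sum.inr (Sum.inl q))) * X (Sum.inl i) ^ 3 := by
      rw [soc, ← Finset.mul_prod_erase _ _ (Finset.mem_univ i)]
      ring
    rw [this]
    exact I.mul_mem_left _ (hx i)
  · have : soc K α * X (Sum.inr (Sum.inl q)) =
        (∏ j ∈ Finset.univ.erase q, X (Sum.inr (Sum.inl j))) *
          ((∏ i : α, X (Sum.inl i) ^ 2) * X (Sum.inr (Sum.inl q)) ^ 2) := by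
      rw [soc, ← Finset.mul_prod_erase (Finset.univ : Finset (α × α)) _ (Finset.mem_univ q)]
      ring
    rw [this]
    exact I.mul_mem_left _ (hz q)
  · have hw := peel I (fun i => X (Sum.inl i)) (fun i => ∑ q, X (Sum.inr (Sum.inl q)) *
      X (Sum.inr (Sum.inr ((v, i), q)))) hx (hg (Sum.inr (Sum.inr v))) i
    exact peel2 I _ (fun q => X (Sum.inr (Sum.inl q)))
      (fun q => X (Sum.inr (Sum.inr ((v, i), q)))) hz hw q

/-- The exponent of the socle element. -/
noncomputable def socExp : Vars α →₀ ℕ :=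
  (∑ i : α, Finsupp.single (Sum.inl i) 2) +
    ∑ q : α × α, Finsupp.single (Sum.inr (Sum.inl q)) 1

theorem soc_eq : soc K α = monomial (socExp α) 1 := by
  rw [soc, socExp, ← mul_one (1 : K), ← monomial_mul, monomial_sum_one, monomial_sum_one]
  congr 1
  exact Finset.prod_congr rfl fun i _ => X_pow_eq_monomial

theorem socExp_x (i : α) : socExp α (Sum.inl i) = 2 := by
  simp [socExp, Finsupp.single_apply]

theorem socExp_z (q : α × α) : socExp α (Sum.inr (Sum.inl q)) = 1 := by
  simp [socExp, Finsupp.single_apply]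

theorem socExp_w (q : (α × α) × (α × α)) : socExp α (Sum.inr (Sum.inr q)) = 0 := by
  simp [socExp]

theorem soc_not_mem : soc K α ∉ Ideal.span (Set.range (gen K α)) := by
  set J : Ideal (MvPolynomial (Vars α) K) :=
    Ideal.span ((fun s => monomial s (1 : K)) '' {d | ¬ d ≤ socExp α}) with hJ
  have hX : ∀ (s : Vars α) (k : ℕ), socExp α s < k →
      (X s : MvPolynomial (Vars α) K) ^ k ∈ J := by
    intro s k hk
    rw [X_pow_eq_monomial]
    refine Ideal.subset_span ⟨_, ?_, rfl⟩
    intro hle
    have := hle s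
    simp only [Finsupp.single_eq_same] at this
    omega
  have hle : Ideal.span (Set.range (gen K α)) ≤ J := by
    rw [Ideal.span_le]
    rintro _ ⟨g, rfl⟩
    rcases g with i | u | v
    · exact hX _ 3 (by rw [socExp_x]; norm_num)
    · refine J.sum_mem fun i _ => J.mul_mem_left _ (hX _ 2 (by rw [socExp_z]; norm_num))
    · refine J.sum_mem fun i _ => J.mul_mem_left _ (J.sum_mem fun q _ => J.mul_mem_left _ ?_)
      have := hX (Sum.inr (Sum.inr ((v, i), q))) 1 (by rw [socExp_w]; norm_num)
      rwa [pow_one] at this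
  intro hmem
  have h := hle hmem
  rw [hJ, mem_ideal_span_monomial_image, soc_eq] at h
  obtain ⟨d, hd, hd'⟩ := h (socExp α) (by
    classical
    rw [mem_support_iff, coeff_monomial, if_pos rfl]
    exact one_ne_zero)
  exact hd hd'

end


/-- For every `c` there are `3c` cubic forms in `c + c^2 + c^4` variables such that some
nonzero element of the quotient by the ideal they generate is killed by all variables. -/
theorem exists_cubics (K : Type) [Field K] (c : ℕ) :
    ∃ f : Fin (3 * c) → MvPolynomial (Fin (c + c ^ 2 + c ^ 4)) K,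
      (∀ i, (f i).IsHomogeneous 3) ∧
      ∃ m : MvPolynomial (Fin (c + c ^ 2 + c ^ 4)) K,
        m ∉ Ideal.span (Set.range f) ∧ ∀ j, m * X j ∈ Ideal.span (Set.range f) := by
  have hcard : Fintype.card (Vars (Fin c)) = c + c ^ 2 + c ^ 4 := by
    simp only [Vars, Fintype.card_sum, Fintype.card_prod, Fintype.card_fin]
    ring
  have hcard' : Fintype.card (Fin c ⊕ Fin c ⊕ Fin c) = 3 * c := by
    simp only [Fintype.card_sum, Fintype.card_fin]
    ring
  let e : Vars (Fin c) ≃ Fin (c + c ^ 2 + c ^ 4) := Fintype.equivFinOfCardEq hcard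
  let e' : (Fin c ⊕ Fin c ⊕ Fin c) ≃ Fin (3 * c) := Fintype.equivFinOfCardEq hcard'
  let φ := renameEquiv K e
  have hspan : Ideal.span (Set.range fun i => φ (gen K (Fin c) (e'.symm i))) =
      Ideal.map (φ : MvPolynomial (Vars (Fin c)) K →+* _)
        (Ideal.span (Set.range (gen K (Fin c)))) := by
    rw [Ideal.map_span]
    congr 1
    ext p
    constructor
    · rintro ⟨i, rfl⟩
      exact ⟨_, ⟨_, rfl⟩, rfl⟩
    · rintro ⟨_, ⟨i, rfl⟩, rfl⟩
      exact ⟨e' i, by simp⟩
  refine ⟨fun i => φ (gen K (Fin c) (e'.symm i)), fun i => ?_, φ (soc K (Fin c)), ?_, fun j => ?_⟩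
  · exact (gen_homogeneous K (Fin c) _).rename_isHomogeneous
  · rw [hspan]
    intro h
    obtain ⟨x, hx, hx'⟩ := (Ideal.mem_map_iff_of_surjective _ φ.surjective).1 h
    exact soc_not_mem K (Fin c) (φ.injective hx' ▸ hx)
  · rw [hspan]
    have : φ (soc K (Fin c)) * X j = φ (soc K (Fin c) * X (e.symm j)) := by
      rw [map_mul]
      simp [φ]
    rw [this]
    exact Ideal.mem_map_of_mem _ (soc_mul_X K (Fin c) _)

/-- Any projective resolution of the quotient by the ideal of `exists_cubics` is long. -/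
theorem exists_cubics_resolution (K : Type) [Field K] (c : ℕ) :
    ∃ f : Fin (3 * c) → MvPolynomial (Fin (c + c ^ 2 + c ^ 4)) K,
      (∀ i, (f i).IsHomogeneous 3) ∧
      ∀ (P : ProjectiveResolution (ModuleCat.of (MvPolynomial (Fin (c + c ^ 2 + c ^ 4)) K)
          (MvPolynomial (Fin (c + c ^ 2 + c ^ 4)) K ⧸ Ideal.span (Set.range f)))) (L : ℕ),
        (∀ i : ℕ, L < i → Limits.IsZero (P.complex.X i)) → c + c ^ 2 + c ^ 4 ≤ L := by
  obtain ⟨f, hf, m, hm, hm'⟩ := exists_cubics K c
  refine ⟨f, hf, fun P L hP => ?_⟩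
  have h := resolution_length (vars_regular K (c + c ^ 2 + c ^ 4))
    (MvPolynomial (Fin (c + c ^ 2 + c ^ 4)) K ⧸ Ideal.span (Set.range f))
    (Ideal.Quotient.mk _ m) (by rwa [ne_eq, Ideal.Quotient.eq_zero_iff_mem]) ?_ P L hP
  · simpa using h
  · intro r hr
    rw [List.mem_ofFn] at hr
    obtain ⟨j, rfl⟩ := hr
    have h2 : (X j : MvPolynomial (Fin (c + c ^ 2 + c ^ 4)) K) •
        (Ideal.Quotient.mk (Ideal.span (Set.range f)) m) =
        Ideal.Quotient.mk (Ideal.span (Set.range f)) (m * X j) := by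
      rw [mul_comm m]
      rfl
    rw [h2, Ideal.Quotient.eq_zero_iff_mem]
    exact hm' j

end Pool.Agent.Helper69.Stillman
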